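import Mathlib

/-!
# Algebra: from Brunn-Minkowski to the quadratic inequalities in dimension three
-/

set_option autoImplicit false

open Filter Topology

namespace Pool.Agent.H590.M3

/-- second derivative test for the cube root of a cubic polynomial -/
theorem quad_of_bm {f0 f1 f2 f3 τ : ℝ} (hf0 : 0 < f0) (hτ : 0 < τ)
    (H : ∀ t : ℝ, |t| ≤ τ → ∀ r r' : ℝ, 0 ≤ r → 0 ≤ r' →
      r ^ 3 ≤ f0 + f1 * t + f2 * t ^ 2 + f3 * t ^ 3 →
      r' ^ 3 ≤ f0 - f1 * t + f2 * t ^ 2 - f3 * t ^ 3 → (r + r') ^ 3 ≤ 8 * f0) :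
    3 * f0 * f2 ≤ f1 ^ 2 := by
  by_contra hcon
  push Not at hcon
  set a := f1 / (3 * f0) with ha
  set b := f2 / (3 * f0) - a ^ 2 with hb
  have hbpos : 0 < b := by
    have : b = (3 * f0 * f2 - f1 ^ 2) / (9 * f0 ^ 2) := by
      rw [hb, ha]; field_simp; ring
    rw [this]
    exact div_pos (by linarith) (by positivity)
  have hf1 : f1 = 3 * f0 * a := by rw [ha]; field_simp
  have hf2 : f2 = 3 * f0 * (b + a ^ 2) := by rw [hb]; field_simp; ring
  set c := b / 2 with hc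
  have hcpos : 0 < c := by rw [hc]; linarith
  obtain ⟨γ, hγ0, hγ⟩ : ∃ γ : ℝ, 0 < γ ∧ γ ^ 3 = f0 := by
    refine ⟨f0 ^ ((1 : ℝ) / 3), Real.rpow_pos_of_pos hf0 _, ?_⟩
    rw [← Real.rpow_natCast, ← Real.rpow_mul hf0.le]
    norm_num
  set g := f3 / f0 with hg
  have hf3 : f3 = f0 * g := by rw [hg]; field_simp
  -- small parameters
  let q : ℝ → ℝ := fun t => 3 * (b - c) + t * (g - 6 * a * c - a ^ 3 - (3 * c ^ 2 + 3 * a ^ 2 * c) * t
    - 3 * a * c ^ 2 * t ^ 2 - c ^ 3 * t ^ 3)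
  let p : ℝ → ℝ := fun t => 1 + a * t + c * t ^ 2
  have hq : ∀ᶠ t in 𝓝 (0 : ℝ), 0 < q t := by
    have : ContinuousAt q 0 := by fun_prop
    refine this.eventually (lt_mem_nhds ?_)
    simp only [q]
    rw [hc]; linarith
  have hp : ∀ᶠ t in 𝓝 (0 : ℝ), 0 < p t := by
    have : ContinuousAt p 0 := by fun_prop
    refine this.eventually (lt_mem_nhds ?_)
    simp only [p]
    norm_num
  have hqn : ∀ᶠ t in 𝓝 (0 : ℝ), 0 < q (-t) := by
    have : Tendsto (fun t : ℝ => -t) (𝓝 0) (𝓝 0) := by simpa using (continuous_neg.tendsto (0 : ℝ))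
    exact this.eventually hq
  have hpn : ∀ᶠ t in 𝓝 (0 : ℝ), 0 < p (-t) := by
    have : Tendsto (fun t : ℝ => -t) (𝓝 0) (𝓝 0) := by simpa using (continuous_neg.tendsto (0 : ℝ))
    exact this.eventually hp
  obtain ⟨t, ⟨⟨⟨⟨h1, h2⟩, h3⟩, h4⟩, h5⟩, h6⟩ := ((((((hq.and hp).and hqn).and hpn).filter_mono
    nhdsWithin_le_nhds).and (Ioc_mem_nhdsGT hτ)).and (self_mem_nhdsWithin)).exists
  have ht0 : 0 < t := h5.1
  have key := H t (by rw [abs_of_pos ht0]; exact h5.2) (γ * p t) (γ * p (-t)) (by positivity)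
    (by positivity) ?_ ?_
  · have e : (γ * p t + γ * p (-t)) ^ 3 = 8 * f0 * (1 + c * t ^ 2) ^ 3 := by
      rw [← hγ]; simp only [p]; ring
    rw [e] at key
    have h7 : 1 < (1 + c * t ^ 2) ^ 3 := by
      have : 0 < c * t ^ 2 := by positivity
      nlinarith [this, mul_pos this this, mul_pos (mul_pos this this) this]
    nlinarith
  · rw [mul_pow, hγ, hf1, hf2, hf3]
    have e : f0 + 3 * f0 * a * t + 3 * f0 * (b + a ^ 2) * t ^ 2 + f0 * g * t ^ 3 - f0 * p t ^ 3 =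
        f0 * t ^ 2 * q t := by
      simp only [p, q]; ring
    have : 0 ≤ f0 * t ^ 2 * q t := by positivity
    linarith
  · rw [mul_pow, hγ, hf1, hf2, hf3]
    have e : f0 - 3 * f0 * a * t + 3 * f0 * (b + a ^ 2) * t ^ 2 - f0 * g * t ^ 3 - f0 * p (-t) ^ 3 =
        f0 * t ^ 2 * q (-t) := by
      simp only [p, q]; ring
    have : 0 ≤ f0 * t ^ 2 * q (-t) := by positivity
    linarith

/-- the cubic form with coefficients given by mixed volumes -/
def cub (aaa aab abb bbb aac abc bbc acc bcc ccc x y z : ℝ) : ℝ :=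
  aaa * x ^ 3 + 3 * aab * x ^ 2 * y + 3 * abb * x * y ^ 2 + bbb * y ^ 3 + 3 * aac * x ^ 2 * z +
    6 * abc * x * y * z + 3 * bbc * y ^ 2 * z + 3 * acc * x * z ^ 2 + 3 * bcc * y * z ^ 2 +
    ccc * z ^ 3

/-- Alexandrov-Fenchel in dimension three from Brunn-Minkowski -/
theorem af_alg {aaa aab abb bbb aac abc bbc acc bcc ccc : ℝ} (hccc : 0 < ccc) (hacc : 0 < acc)
    (hbcc : 0 < bcc) (haac : 0 ≤ aac) (hbbc : 0 ≤ bbc) (habc : 0 ≤ abc)
    (haaa : 0 ≤ aaa) (haab : 0 ≤ aab) (habb : 0 ≤ abb) (hbbb : 0 ≤ bbb)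
    (H : ∀ x y z x' y' z' r r' : ℝ, 0 ≤ x → 0 ≤ y → 0 ≤ z → 0 ≤ x' → 0 ≤ y' → 0 ≤ z' → 0 ≤ r →
      0 ≤ r' → r ^ 3 ≤ cub aaa aab abb bbb aac abc bbc acc bcc ccc x y z →
      r' ^ 3 ≤ cub aaa aab abb bbb aac abc bbc acc bcc ccc x' y' z' →
      (r + r') ^ 3 ≤ cub aaa aab abb bbb aac abc bbc acc bcc ccc (x + x') (y + y') (z + z')) :
    aac * bbc ≤ abc ^ 2 := by
  set α := acc with hα
  set β := bcc with hβ
  -- the coefficients at the point `(ε, ε, 1)` in direction `(β, -α, 0)`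
  let f0 : ℝ → ℝ := fun e => cub aaa aab abb bbb aac abc bbc α β ccc e e 1
  let f1 : ℝ → ℝ := fun e => 3 * aaa * e ^ 2 * β + 3 * aab * (2 * e ^ 2 * β - e ^ 2 * α) +
    3 * abb * (e ^ 2 * β - 2 * e ^ 2 * α) - 3 * bbb * e ^ 2 * α + 6 * aac * e * β +
    6 * abc * (e * β - e * α) - 6 * bbc * e * α + 3 * α * β - 3 * β * α
  let f2 : ℝ → ℝ := fun e => 3 * aaa * e * β ^ 2 + 3 * aab * (e * β ^ 2 - 2 * e * α * β) +
    3 * abb * (e * α ^ 2 - 2 * e * α * β) + 3 * bbb * e * α ^ 2 + 3 * aac * β ^ 2 -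
    6 * abc * α * β + 3 * bbc * α ^ 2
  let f3 : ℝ := aaa * β ^ 3 - 3 * aab * β ^ 2 * α + 3 * abb * β * α ^ 2 - bbb * α ^ 3
  have hid : ∀ e t : ℝ, cub aaa aab abb bbb aac abc bbc α β ccc (e + β * t) (e - α * t) 1 =
      f0 e + f1 e * t + f2 e * t ^ 2 + f3 * t ^ 3 := by
    intro e t
    simp only [f0, f1, f2, f3, cub]
    ring
  have hstep : ∀ e : ℝ, 0 < e → 3 * f0 e * f2 e ≤ f1 e ^ 2 := by
    intro e he
    have hs : 0 < α + β := by linarith
    have hf0e : 0 < f0 e := by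
      simp only [f0, cub]
      positivity
    refine quad_of_bm hf0e (div_pos he hs) (f3 := f3) fun t ht r r' hr hr' h1 h2 => ?_
    have hαt : α * |t| ≤ e := by
      have : (α + β) * |t| ≤ e := by
        rw [mul_comm]; exact (le_div_iff₀ hs).1 ht
      nlinarith [abs_nonneg t]
    have hβt : β * |t| ≤ e := by
      have : (α + β) * |t| ≤ e := by
        rw [mul_comm]; exact (le_div_iff₀ hs).1 ht
      nlinarith [abs_nonneg t]
    have ha1 : -|t| ≤ t := neg_abs_le t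
    have ha2 : t ≤ |t| := le_abs_self t
    have key := H (e + β * t) (e - α * t) 1 (e + β * (-t)) (e - α * (-t)) 1 r r'
      (by nlinarith) (by nlinarith) zero_le_one (by nlinarith) (by nlinarith) zero_le_one hr hr'
      (by rw [hid]; exact h1) (by rw [hid]; linarith)
    refine key.trans (le_of_eq ?_)
    simp only [f0, cub]
    ring
  have hlim : 3 * f0 0 * f2 0 ≤ f1 0 ^ 2 := by
    have c1 : Continuous fun e => 3 * f0 e * f2 e := by
      simp only [f0, f2, cub]; fun_prop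
    have c2 : Continuous fun e => f1 e ^ 2 := by
      simp only [f1]; fun_prop
    have t1 : Tendsto (fun e => 3 * f0 e * f2 e) (𝓝[>] 0) (𝓝 (3 * f0 0 * f2 0)) :=
      (c1.tendsto 0).mono_left nhdsWithin_le_nhds
    have t2 : Tendsto (fun e => f1 e ^ 2) (𝓝[>] 0) (𝓝 (f1 0 ^ 2)) :=
      (c2.tendsto 0).mono_left nhdsWithin_le_nhds
    refine le_of_tendsto_of_tendsto t1 t2 ?_
    filter_upwards [self_mem_nhdsWithin] with e he using hstep e he
  have e1 : f1 0 = 0 := by simp only [f1]; ring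
  have e2 : f0 0 = ccc := by simp only [f0, cub]; ring
  have e3 : f2 0 = 3 * (aac * β ^ 2 - 2 * abc * α * β + bbc * α ^ 2) := by
    simp only [f2]; ring
  rw [e1, e2, e3] at hlim
  have h1 : aac * β ^ 2 + bbc * α ^ 2 ≤ 2 * abc * α * β := by
    by_contra hcon
    push Not at hcon
    have : 0 < ccc * (aac * β ^ 2 - 2 * abc * α * β + bbc * α ^ 2) := mul_pos hccc (by linarith)
    nlinarith
  have h2 : 4 * (aac * β ^ 2) * (bbc * α ^ 2) ≤ (2 * abc * α * β) ^ 2 := by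
    have h3 : (aac * β ^ 2 + bbc * α ^ 2) ^ 2 ≤ (2 * abc * α * β) ^ 2 :=
      pow_le_pow_left₀ (by positivity) h1 2
    nlinarith [sq_nonneg (aac * β ^ 2 - bbc * α ^ 2)]
  have h3 : (aac * bbc) * (4 * α ^ 2 * β ^ 2) ≤ abc ^ 2 * (4 * α ^ 2 * β ^ 2) := by
    nlinarith
  exact le_of_mul_le_mul_right h3 (by positivity)

end Pool.Agent.H590.M3
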