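import Pool.Agent.H590.M3.Gen
import Pool.Graph.R_seed8.W679.AM.Cor
import Pool.Graph.R_seed8.TH984.GE.Final
import Pool.Graph.R_seed8.TH984.GE.Ineq

/-!
# Convex bodies in Euclidean space: the volume product
-/

set_option autoImplicit false
set_option linter.unusedSectionVars false

open MeasureTheory Set Multiset Module
open scoped Pointwise NNReal ENNReal RealInnerProductSpace

noncomputable section

namespace Pool.Agent.H590.M3

open Pool.Agent.TH650.MV

variable {n : ℕ}

theorem int_ne {K : Set (EuclideanSpace ℝ (Fin n))} {z : EuclideanSpace ℝ (Fin n)}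
    (hz : z ∈ interior K) : K.Nonempty := ⟨z, interior_subset hz⟩

theorem int_mem {K : Set (EuclideanSpace ℝ (Fin n))} {z : EuclideanSpace ℝ (Fin n)}
    (hz : z ∈ interior K) : z ∈ K := interior_subset hz

theorem convex_shift {K : Set (EuclideanSpace ℝ (Fin n))} (hv : Convex ℝ K)
    (z : EuclideanSpace ℝ (Fin n)) : Convex ℝ ((fun x => x - z) '' K) := by
  rintro _ ⟨x, hx, rfl⟩ _ ⟨y, hy, rfl⟩ a b ha hb hab
  refine ⟨a • x + b • y, hv hx hy ha hb hab, ?_⟩
  have : z = (a + b) • z := by rw [hab, one_smul]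
  show a • x + b • y - z = a • (x - z) + b • (y - z)
  rw [smul_sub, smul_sub]
  nth_rw 1 [this]
  rw [add_smul]
  abel

/-- the body `K - z` -/
def bod (K : Set (EuclideanSpace ℝ (Fin n))) (z : EuclideanSpace ℝ (Fin n)) (hc : IsCompact K)
    (hv : Convex ℝ K) (hz : z ∈ interior K) : ConvexBody (EuclideanSpace ℝ (Fin n)) :=
  ⟨(fun x => x - z) '' K, convex_shift hv z, hc.image (by fun_prop), (int_ne hz).image _⟩

section

variable {K : Set (EuclideanSpace ℝ (Fin n))} {z : EuclideanSpace ℝ (Fin n)}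

/-- the vector of a functional -/
def vec (f : EuclideanSpace ℝ (Fin n) →L[ℝ] ℝ) : EuclideanSpace ℝ (Fin n) :=
  (InnerProductSpace.toDual ℝ (EuclideanSpace ℝ (Fin n))).symm f

theorem vec_apply (f : EuclideanSpace ℝ (Fin n) →L[ℝ] ℝ) (x : EuclideanSpace ℝ (Fin n)) :
    ⟪x, vec f⟫ = f x := by
  rw [real_inner_comm]
  exact InnerProductSpace.toDual_symm_apply

theorem vec_neg (f : EuclideanSpace ℝ (Fin n) →L[ℝ] ℝ) : vec (-f) = -vec f := by
  unfold vec
  rw [map_neg]

theorem sp_bod (hc : IsCompact K) (hv : Convex ℝ K) (hz : z ∈ interior K)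
    (f : EuclideanSpace ℝ (Fin n) →L[ℝ] ℝ) :
    sp (bod K z hc hv hz) f = W679AM.hz K z (vec f) := by
  unfold sp W679AM.hz
  show sSup (f '' ((fun x => x - z) '' K)) = _
  rw [image_image]
  congr 1
  exact image_congr fun x _ => (vec_apply f (x - z)).symm

theorem neg_mem_prz {x : EuclideanSpace ℝ (Fin n)} (hx : x ∈ W679AM.prz K z) :
    -x ∈ W679AM.prz K z := by
  intro u
  rw [inner_neg_left, abs_neg]
  exact hx u

theorem isHarm_prz (hc : IsCompact K) (hv : Convex ℝ K) (hz : z ∈ interior K)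
    {x : EuclideanSpace ℝ (Fin n)} (hx : x ∈ W679AM.prz K z)
    (f : EuclideanSpace ℝ (Fin n) →L[ℝ] ℝ) :
    |f x| * (sp (bod K z hc hv hz) f + sp (bod K z hc hv hz) (-f)) ≤
      sp (bod K z hc hv hz) f * sp (bod K z hc hv hz) (-f) := by
  rw [sp_bod, sp_bod, vec_neg, ← vec_apply]
  exact hx (vec f)

theorem sp_nonneg (hc : IsCompact K) (hv : Convex ℝ K) (hz : z ∈ interior K)
    (f : EuclideanSpace ℝ (Fin n) →L[ℝ] ℝ) : 0 ≤ sp (bod K z hc hv hz) f := by
  have h : (0 : EuclideanSpace ℝ (Fin n)) ∈ bod K z hc hv hz := ⟨z, int_mem hz, sub_self z⟩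
  have h1 := le_sp _ f h
  have h2 : f 0 = 0 := map_zero f
  rwa [h2] at h1

theorem sp_pos (hc : IsCompact K) (hv : Convex ℝ K) (hz : z ∈ interior K)
    {f : EuclideanSpace ℝ (Fin n) →L[ℝ] ℝ} (hf : f ≠ 0) : 0 < sp (bod K z hc hv hz) f := by
  obtain ⟨r, hr, hball⟩ := Metric.nhds_basis_closedBall.mem_iff.1 (mem_interior_iff_mem_nhds.1 hz)
  have hv0 : vec f ≠ 0 := by
    intro h
    refine hf ?_
    ext x
    rw [← vec_apply, h, inner_zero_right]
    rfl
  have hvn : 0 < ‖vec f‖ := norm_pos_iff.2 hv0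
  have h1 : (r / ‖vec f‖) • vec f ∈ bod K z hc hv hz := by
    refine ⟨z + (r / ‖vec f‖) • vec f, hball ?_, by simp⟩
    rw [mem_closedBall_iff_norm, add_sub_cancel_left, norm_smul, Real.norm_eq_abs,
      abs_of_pos (by positivity), div_mul_cancel₀ _ hvn.ne']
  refine lt_of_lt_of_le ?_ (le_sp _ f h1)
  rw [← vec_apply, inner_smul_left, real_inner_self_eq_norm_sq]
  simp only [conj_trivial]
  positivity

theorem prz_subset (hc : IsCompact K) (hv : Convex ℝ K) (hz : z ∈ interior K) :
    W679AM.prz K z ⊆ bod K z hc hv hz := by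
  intro x hx
  show x ∈ bod K z hc hv hz
  rw [mem_iff_sp]
  intro f
  rcases eq_or_ne f 0 with rfl | hf
  · have h0 := sp_nonneg hc hv hz
      (0 : EuclideanSpace ℝ (Fin n) →L[ℝ] ℝ)
    simpa using h0
  · have h1 := sp_pos hc hv hz hf
    have h2 := sp_pos hc hv hz (neg_ne_zero.2 hf)
    have h3 := isHarm_prz hc hv hz hx f
    have h4 := le_abs_self (f x)
    by_contra hcon
    push Not at hcon
    nlinarith

theorem prz_closed (K : Set (EuclideanSpace ℝ (Fin n))) (z : EuclideanSpace ℝ (Fin n)) :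
    IsClosed (W679AM.prz K z) := by
  have : W679AM.prz K z = ⋂ u, {x | |⟪x, u⟫| * (W679AM.hz K z u + W679AM.hz K z (-u)) ≤
      W679AM.hz K z u * W679AM.hz K z (-u)} := by
    ext x; simp [W679AM.prz]
  rw [this]
  exact isClosed_iInter fun u => isClosed_le (by fun_prop) continuous_const

theorem prz_convex (hc : IsCompact K) (hz : z ∈ K) : Convex ℝ (W679AM.prz K z) := by
  intro x hx y hy a b ha hb hab u
  have h1 := hx u
  have h2 := hy u
  have hs : 0 ≤ W679AM.hz K z u + W679AM.hz K z (-u) :=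
    add_nonneg (W679AM.hz_nonneg hc hz u) (W679AM.hz_nonneg hc hz (-u))
  have h3 : |⟪a • x + b • y, u⟫| ≤ a * |⟪x, u⟫| + b * |⟪y, u⟫| := by
    rw [inner_add_left, real_inner_smul_left, real_inner_smul_left]
    refine (abs_add_le _ _).trans ?_
    rw [abs_mul, abs_mul, abs_of_nonneg ha, abs_of_nonneg hb]
  calc |⟪a • x + b • y, u⟫| * (W679AM.hz K z u + W679AM.hz K z (-u)) ≤
        (a * |⟪x, u⟫| + b * |⟪y, u⟫|) * (W679AM.hz K z u + W679AM.hz K z (-u)) :=
        mul_le_mul_of_nonneg_right h3 hs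
    _ = a * (|⟪x, u⟫| * (W679AM.hz K z u + W679AM.hz K z (-u))) +
        b * (|⟪y, u⟫| * (W679AM.hz K z u + W679AM.hz K z (-u))) := by ring
    _ ≤ a * (W679AM.hz K z u * W679AM.hz K z (-u)) + b * (W679AM.hz K z u * W679AM.hz K z (-u)) :=
        add_le_add (mul_le_mul_of_nonneg_left h1 ha) (mul_le_mul_of_nonneg_left h2 hb)
    _ = _ := by rw [← add_mul, hab, one_mul]

theorem zero_mem_prz (hc : IsCompact K) (hz : z ∈ K) :
    (0 : EuclideanSpace ℝ (Fin n)) ∈ W679AM.prz K z := by
  intro u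
  rw [inner_zero_left, abs_zero, zero_mul]
  exact mul_nonneg (W679AM.hz_nonneg hc hz u) (W679AM.hz_nonneg hc hz (-u))

/-- the harmonic body as a convex body -/
def har (K : Set (EuclideanSpace ℝ (Fin n))) (z : EuclideanSpace ℝ (Fin n)) (hc : IsCompact K)
    (hv : Convex ℝ K) (hz : z ∈ interior K) : ConvexBody (EuclideanSpace ℝ (Fin n)) :=
  ⟨W679AM.prz K z, prz_convex hc (interior_subset hz),
    (bod K z hc hv hz).isCompact.of_isClosed_subset (prz_closed K z)
      (prz_subset hc hv hz), ⟨0, zero_mem_prz hc (interior_subset hz)⟩⟩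

theorem isHarm_har (hc : IsCompact K) (hv : Convex ℝ K) (hz : z ∈ interior K) :
    IsHarm (bod K z hc hv hz) (har K z hc hv hz) :=
  fun _ hx f => isHarm_prz hc hv hz hx f

theorem coe_rf (L : ConvexBody (EuclideanSpace ℝ (Fin n))) :
    (rf L : Set (EuclideanSpace ℝ (Fin n))) = -(L : Set (EuclideanSpace ℝ (Fin n))) := by
  ext x
  constructor
  · rintro ⟨y, hy, rfl⟩
    simpa using hy
  · intro hx
    exact ⟨-x, hx, by simp⟩

theorem rf_har (hc : IsCompact K) (hv : Convex ℝ K) (hz : z ∈ interior K) :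
    rf (har K z hc hv hz) = har K z hc hv hz := by
  apply SetLike.coe_injective
  rw [coe_rf]
  show -(W679AM.prz K z) = W679AM.prz K z
  ext x
  constructor
  · intro hx
    have := neg_mem_prz (Set.mem_neg.1 hx)
    rwa [neg_neg] at this
  · intro hx
    exact Set.mem_neg.2 (neg_mem_prz hx)

/-- the harmonic body has nonempty interior -/
theorem exists_eps (hc : IsCompact K) (hv : Convex ℝ K) (hz : z ∈ interior K) :
    ∃ ε : ℝ≥0, 0 < ε ∧ ε • bod K z hc hv hz ≤ har K z hc hv hz := by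
  set B := bod K z hc hv hz with hB
  obtain ⟨r, hr, hball⟩ := Metric.nhds_basis_closedBall.mem_iff.1 (mem_interior_iff_mem_nhds.1 hz)
  obtain ⟨R, hR0, hR⟩ : ∃ R : ℝ, 0 < R ∧ ∀ x ∈ B, ‖x‖ ≤ R := by
    obtain ⟨R, hR⟩ := B.isCompact.isBounded.exists_norm_le
    exact ⟨max R 1, by positivity, fun x hx => (hR x hx).trans (le_max_left _ _)⟩
  set ρ := r / R with hρ
  have hρ0 : 0 < ρ := by positivity
  -- `ρ (-B) ⊆ B`
  have hneg : ∀ f : EuclideanSpace ℝ (Fin n) →L[ℝ] ℝ, ρ * sp B (-f) ≤ sp B f := by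
    intro f
    obtain ⟨x, hx, hfx⟩ := exists_sp B (-f)
    have h1 : -(ρ • x) ∈ B := by
      refine ⟨z + -(ρ • x), hball ?_, by simp⟩
      rw [mem_closedBall_iff_norm, add_sub_cancel_left, norm_neg, norm_smul, Real.norm_eq_abs,
        abs_of_pos hρ0, hρ, div_mul_eq_mul_div, div_le_iff₀ hR0]
      exact mul_le_mul_of_nonneg_left (hR x hx) hr.le
    have h2 := le_sp B f h1
    rw [← hfx]
    rw [map_neg, map_smul, smul_eq_mul] at h2
    have h3 : (-f) x = -(f x) := rfl
    rw [h3]
    linarith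
  refine ⟨⟨ρ / 2, by positivity⟩, by exact_mod_cast (by positivity : (0 : ℝ) < ρ / 2), ?_⟩
  rintro _ ⟨x, hx, rfl⟩
  show (ρ / 2) • x ∈ W679AM.prz K z
  intro u
  set f : EuclideanSpace ℝ (Fin n) →L[ℝ] ℝ := InnerProductSpace.toDual ℝ _ u with hf
  have hvf : vec f = u := by
    unfold vec
    rw [hf, LinearIsometryEquiv.symm_apply_apply]
  have hs : W679AM.hz K z u = sp B f := by rw [hB, sp_bod, hvf]
  have ht : W679AM.hz K z (-u) = sp B (-f) := by rw [hB, sp_bod, vec_neg, hvf]
  rw [hs, ht]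
  have e : ⟪(ρ / 2) • x, u⟫ = ρ / 2 * f x := by
    rw [real_inner_smul_left, ← hvf, vec_apply]
  rw [e]
  have h1 := hneg f
  have h2 := hneg (-f)
  rw [neg_neg] at h2
  have h3 : f x ≤ sp B f := le_sp B f hx
  have h4 : -(f x) ≤ sp B (-f) := le_sp B (-f) hx
  have h5 : 0 ≤ sp B f := sp_nonneg hc hv hz f
  have h6 : 0 ≤ sp B (-f) := sp_nonneg hc hv hz (-f)
  set s := sp B f with hs'
  set t := sp B (-f) with ht'
  have h7 : |f x| ≤ max s t := abs_le.2 ⟨by linarith [le_max_right s t], h3.trans (le_max_left _ _)⟩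
  rw [abs_mul, abs_of_pos (by positivity)]
  have h8 : ρ / 2 * max s t * (s + t) ≤ s * t := by
    rcases le_total s t with hst | hst
    · rw [max_eq_right hst]
      have : ρ * t * (s + t) ≤ s * (s + t) := mul_le_mul_of_nonneg_right h1 (by linarith)
      nlinarith
    · rw [max_eq_left hst]
      have : ρ * s * (s + t) ≤ t * (s + t) := mul_le_mul_of_nonneg_right h2 (by linarith)
      nlinarith
  refine le_trans ?_ h8
  exact mul_le_mul_of_nonneg_right (mul_le_mul_of_nonneg_left h7 (by positivity)) (by linarith)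

theorem vl_bod (hc : IsCompact K) (hv : Convex ℝ K) (hz : z ∈ interior K) :
    vl volume (bod K z hc hv hz) = volume.real K := by
  unfold vl
  show (volume ((fun x => x - z) '' K)).toReal = _
  have : (fun x => x - z) '' K = (fun x => x + z) ⁻¹' K := by
    ext x
    constructor
    · rintro ⟨y, hy, rfl⟩
      simpa using hy
    · intro hx
      exact ⟨x + z, hx, by simp⟩
  rw [this, measure_preimage_add_right]
  rfl

theorem vl_har (hc : IsCompact K) (hv : Convex ℝ K) (hz : z ∈ interior K) :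
    vl volume (har K z hc hv hz) = volume.real (W679AM.prz K z) := rfl

theorem vl_diff_bod (hc : IsCompact K) (hv : Convex ℝ K) (hz : z ∈ interior K) :
    vl volume (bod K z hc hv hz + rf (bod K z hc hv hz)) = volume.real (K - K) := by
  unfold vl
  rw [ConvexBody.coe_add, coe_rf]
  have : ((bod K z hc hv hz : Set (EuclideanSpace ℝ (Fin n))) +
      -(bod K z hc hv hz : Set (EuclideanSpace ℝ (Fin n)))) = K - K := by
    ext x
    constructor
    · rintro ⟨_, ⟨a, ha, rfl⟩, b, hb, rfl⟩
      obtain ⟨c, hc', hcb⟩ := Set.mem_neg.1 hb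
      refine ⟨a, ha, c, hc', ?_⟩
      have hb' : b = -(c - z) := by
        simp only at hcb
        rw [hcb, neg_neg]
      show a - c = (a - z) + b
      rw [hb']
      abel
    · rintro ⟨a, ha, c, hc', rfl⟩
      refine ⟨a - z, ⟨a, ha, rfl⟩, -(c - z), Set.mem_neg.2 ⟨c, hc', by simp⟩, ?_⟩
      show (a - z) + -(c - z) = a - c
      abel
  rw [this]
  rfl

theorem vol_neg : (volume : Measure (EuclideanSpace ℝ (Fin n))).map (fun x => -x) = volume :=
  Measure.map_neg_eq_self _

theorem interior_bod (hc : IsCompact K) (hv : Convex ℝ K) (hz : z ∈ interior K) :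
    (interior (bod K z hc hv hz : Set (EuclideanSpace ℝ (Fin n)))).Nonempty := by
  have e : (bod K z hc hv hz : Set (EuclideanSpace ℝ (Fin n))) =
      (fun x => x + z) ⁻¹' K := by
    show (fun x => x - z) '' K = _
    ext x
    constructor
    · rintro ⟨y, hy, rfl⟩
      simpa using hy
    · intro hx
      exact ⟨x + z, hx, by simp⟩
  rw [e]
  have h1 : (fun x : EuclideanSpace ℝ (Fin n) => x + z) ⁻¹' (interior K) ⊆
      interior ((fun x => x + z) ⁻¹' K) :=
    interior_maximal (preimage_mono interior_subset)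
      (isOpen_interior.preimage (continuous_id.add continuous_const))
  exact ⟨0, h1 (by simpa using hz)⟩

/-- Godbersen's inequality (library) -/
theorem godbersen (L : ConvexBody (EuclideanSpace ℝ (Fin n)))
    (hi : (interior (L : Set (EuclideanSpace ℝ (Fin n)))).Nonempty) (i j : ℕ) (hij : i + j = n) :
    V volume (replicate i L + replicate j (rf L)) ≤ ((i + j).choose i : ℝ) * vl volume L := by
  have hfin : finrank ℝ (EuclideanSpace ℝ (Fin n)) = n := by simp
  have hpoly : ∀ a b : ℝ, 0 ≤ a → 0 ≤ b →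
      (volume (a • (L : Set (EuclideanSpace ℝ (Fin n))) + b • (-(L : Set _)))).toReal =
      ∑ i ∈ Finset.range (n + 1), (n.choose i : ℝ) *
        V volume (replicate i L + replicate (n - i) (rf L)) * a ^ i * b ^ (n - i) := by
    intro a b ha hb
    lift a to ℝ≥0 using ha
    lift b to ℝ≥0 using hb
    have h1 := Pool.Agent.TH984.GE12.vl_two (volume : Measure (EuclideanSpace ℝ (Fin n))) L (rf L) a b
    rw [hfin] at h1
    refine Eq.trans ?_ h1
    unfold vl
    rw [ConvexBody.coe_add, ConvexBody.coe_smul', ConvexBody.coe_smul', coe_rf]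
    rfl
  have h := (Pool.Agent.TH984.GE12.ineq n L L.isCompact L.convex hi
    (fun i => V volume (replicate i L + replicate (n - i) (rf L))) hpoly i (by omega)).1
  have e : n - i = j := by omega
  rw [e] at h
  rw [hij]
  exact h

/-- the bound of the harmonic body in all dimensions `n ≥ 2` -/
theorem prz_gen (hn : 2 ≤ n) (hc : IsCompact K) (hv : Convex ℝ K) (hz : z ∈ interior K) :
    volume.real (W679AM.prz K z) ≤ 8 / (9 * ((n : ℝ) + 1)) * volume.real K := by
  obtain ⟨m, rfl⟩ : ∃ m, n = m + 2 := ⟨n - 2, by omega⟩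
  obtain ⟨ε, hε, hεW⟩ := exists_eps hc hv hz
  have hi := interior_bod hc hv hz
  have h := vol_gen (μ := (volume : Measure (EuclideanSpace ℝ (Fin (m + 2))))) (m := m) (by simp)
    vol_neg (isHarm_har hc hv hz) (fun f hf => sp_pos hc hv hz hf) (rf_har hc hv hz)
    (Pool.Agent.TH984.GE12.vl_of_interior volume hi) hε hεW
    (fun i j hij => godbersen _ hi i j hij)
  rw [vl_bod, vl_har] at h
  refine h.trans (le_of_eq ?_)
  push_cast
  ring

end

section three

variable {K : Set (EuclideanSpace ℝ (Fin 3))} {z : EuclideanSpace ℝ (Fin 3)}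

/-- the bound of the harmonic body in dimension three -/
theorem prz_three (hc : IsCompact K) (hv : Convex ℝ K) (hz : z ∈ interior K) :
    let v := (volume.real (K - K) / volume.real K - 2) / 6
    1 ≤ v ∧ v ≤ 3 ∧ volume.real (W679AM.prz K z) ≤ g3 v * volume.real K := by
  intro v
  obtain ⟨ε, hε, hεW⟩ := exists_eps hc hv hz
  have hi := interior_bod hc hv hz
  have hfin : finrank ℝ (EuclideanSpace ℝ (Fin 3)) = 3 := by simp
  set B := bod K z hc hv hz with hB
  have hB0 : 0 < vl volume B := Pool.Agent.TH984.GE12.vl_of_interior volume hi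
  have hM : T volume B B (rf B) ≤ 3 * vl volume B := by
    have h := godbersen B hi 2 1 rfl
    have e : T volume B B (rf B) = V volume (replicate 2 B + replicate 1 (rf B)) := rfl
    rw [e]
    refine h.trans (le_of_eq ?_)
    norm_num
  have h := vol_three (μ := (volume : Measure (EuclideanSpace ℝ (Fin 3)))) hfin
    vol_neg (isHarm_har hc hv hz) (fun f hf => sp_pos hc hv hz hf) (rf_har hc hv hz)
    hB0 hε hεW hM
  have hd := vl_diff (μ := (volume : Measure (EuclideanSpace ℝ (Fin 3)))) hfin vol_neg B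
  rw [hB, vl_diff_bod, ← hB] at hd
  have hvB : vl volume B = volume.real K := vl_bod hc hv hz
  rw [← hB] at h
  rw [hvB] at hd h hM hB0
  have hv' : v = T volume B B (rf B) / volume.real K := by
    simp only [v]
    rw [hd]
    field_simp
    ring
  rw [hv']
  refine ⟨h.1, ?_, ?_⟩
  · rw [div_le_iff₀ hB0]; exact hM
  · exact h.2

end three

end Pool.Agent.H590.M3

end
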