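import Pool.Agent.H590.M3.Harm

/-!
# The volume of the harmonic body in dimension three
-/

set_option autoImplicit false
set_option linter.unusedSectionVars false

open MeasureTheory Set Multiset Module
open scoped Pointwise NNReal ENNReal

noncomputable section

namespace Pool.Agent.H590.M3

open Pool.Agent.TH650.MV

/-- the bound for the quotient of the volumes in terms of `v = V(K, K, -K) / |K|` -/
def g3 (v : ℝ) : ℝ := v * (3 * v + 1) ^ 2 / (4 * (1 + v) ^ 3 * (3 + v))

/-- the elementary part, normalised to `|K| = 1` -/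
theorem alg_three {v p q y w : ℝ} (hv1 : 1 ≤ v) (hv3 : v ≤ 3) (hp : 0 < p) (hq : 0 < q)
    (hy : 0 ≤ y) (h1 : p * (1 + v) ≤ v) (h2 : 2 * q ≤ v)
    (h3 : y * (v * (3 * v + 1)) ≤ (v * p + q) ^ 2) (h4 : w * (p + q) ≤ 2 * y ^ 2) :
    w ≤ g3 v := by
  have hv0 : 0 < v := by linarith
  set P := v / (1 + v) with hP
  set Q := v / 2 with hQ
  have hpP : p ≤ P := by rw [hP, le_div_iff₀ (by linarith)]; exact h1
  have hqQ : q ≤ Q := by rw [hQ]; linarith
  have hP0 : 0 < P := by rw [hP]; positivity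
  have hQ0 : 0 < Q := by rw [hQ]; positivity
  set D := v * (3 * v + 1) with hD
  have hD0 : 0 < D := by rw [hD]; positivity
  -- `w (p + q) D² ≤ 2 (v p + q)⁴`
  have s1 : w * (p + q) * D ^ 2 ≤ 2 * (v * p + q) ^ 4 := by
    have e1 : (y * D) ^ 2 ≤ ((v * p + q) ^ 2) ^ 2 := pow_le_pow_left₀ (by positivity) h3 2
    have e2 : w * (p + q) * D ^ 2 ≤ 2 * y ^ 2 * D ^ 2 := mul_le_mul_of_nonneg_right h4 (by positivity)
    calc w * (p + q) * D ^ 2 ≤ 2 * y ^ 2 * D ^ 2 := e2
      _ = 2 * (y * D) ^ 2 := by ring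
      _ ≤ 2 * ((v * p + q) ^ 2) ^ 2 := by linarith
      _ = _ := by ring
  have bern : ∀ A δ : ℝ, 0 ≤ A → 0 ≤ δ → A ^ 4 + 4 * A ^ 3 * δ ≤ (A + δ) ^ 4 := by
    intro A δ hA hδ
    have : (A + δ) ^ 4 - (A ^ 4 + 4 * A ^ 3 * δ) = 6 * A ^ 2 * δ ^ 2 + 4 * A * δ ^ 3 + δ ^ 4 := by
      ring
    have h : 0 ≤ 6 * A ^ 2 * δ ^ 2 + 4 * A * δ ^ 3 + δ ^ 4 := by positivity
    linarith
  -- monotonicity in `p`
  have s2 : (v * p + q) ^ 4 * (P + q) ≤ (v * P + q) ^ 4 * (p + q) := by
    have hA : 0 ≤ v * p + q := by positivity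
    have b := bern (v * p + q) (v * (P - p)) hA (mul_nonneg hv0.le (by linarith))
    have e : v * p + q + v * (P - p) = v * P + q := by ring
    rw [e] at b
    have c : (v * p + q) ^ 4 * (P + q) ≤
        ((v * p + q) ^ 4 + 4 * (v * p + q) ^ 3 * (v * (P - p))) * (p + q) := by
      have e2 : ((v * p + q) ^ 4 + 4 * (v * p + q) ^ 3 * (v * (P - p))) * (p + q) -
          (v * p + q) ^ 4 * (P + q) =
          (v * p + q) ^ 3 * (P - p) * (4 * v * (p + q) - (v * p + q)) := by ring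
      have e3 : 0 ≤ (v * p + q) ^ 3 * (P - p) * (4 * v * (p + q) - (v * p + q)) := by
        refine mul_nonneg (mul_nonneg (by positivity) (by linarith)) ?_
        nlinarith
      linarith
    exact c.trans (mul_le_mul_of_nonneg_right b (by positivity))
  -- monotonicity in `q`
  have s3 : (v * P + q) ^ 4 * (P + Q) ≤ (v * P + Q) ^ 4 * (P + q) := by
    have hA : 0 ≤ v * P + q := by positivity
    have b := bern (v * P + q) (Q - q) hA (by linarith)
    have e : v * P + q + (Q - q) = v * P + Q := by ring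
    rw [e] at b
    have c : (v * P + q) ^ 4 * (P + Q) ≤
        ((v * P + q) ^ 4 + 4 * (v * P + q) ^ 3 * (Q - q)) * (P + q) := by
      have e2 : ((v * P + q) ^ 4 + 4 * (v * P + q) ^ 3 * (Q - q)) * (P + q) -
          (v * P + q) ^ 4 * (P + Q) =
          (v * P + q) ^ 3 * (Q - q) * (4 * (P + q) - (v * P + q)) := by ring
      have e3 : 0 ≤ (v * P + q) ^ 3 * (Q - q) * (4 * (P + q) - (v * P + q)) := by
        refine mul_nonneg (mul_nonneg (by positivity) (by linarith)) ?_
        nlinarith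
      linarith
    exact c.trans (mul_le_mul_of_nonneg_right b (by positivity))
  -- combination
  have s4 : (v * p + q) ^ 4 * (P + Q) ≤ (v * P + Q) ^ 4 * (p + q) := by
    have e1 := mul_le_mul_of_nonneg_right s2 (by positivity : 0 ≤ P + Q)
    have e2 := mul_le_mul_of_nonneg_right s3 (by positivity : 0 ≤ p + q)
    have e3 : (v * p + q) ^ 4 * (P + Q) * (P + q) ≤ (v * P + Q) ^ 4 * (p + q) * (P + q) := by
      nlinarith
    exact le_of_mul_le_mul_right e3 (by positivity)
  have s5 : w * D ^ 2 * (P + Q) ≤ 2 * (v * P + Q) ^ 4 := by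
    have e1 := mul_le_mul_of_nonneg_right s1 (by positivity : 0 ≤ P + Q)
    have e3 : w * D ^ 2 * (P + Q) * (p + q) ≤ 2 * (v * P + Q) ^ 4 * (p + q) := by
      nlinarith
    exact le_of_mul_le_mul_right e3 (by positivity)
  have hDP : 0 < D ^ 2 * (P + Q) := by positivity
  have s6 : w ≤ 2 * (v * P + Q) ^ 4 / (D ^ 2 * (P + Q)) := by
    rw [le_div_iff₀ hDP]
    linarith
  refine s6.trans (le_of_eq ?_)
  rw [hD, hP, hQ, g3]
  have h1v : (1 + v) ≠ 0 := by positivity
  have h3v : (3 * v + 1) ≠ 0 := by positivity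
  have h3v' : (3 + v) ≠ 0 := by positivity
  have e1 : v * (v / (1 + v)) + v / 2 = v * (3 * v + 1) / (2 * (1 + v)) := by
    field_simp; ring
  have e2 : v / (1 + v) + v / 2 = v * (3 + v) / (2 * (1 + v)) := by
    field_simp; ring
  rw [e1, e2]
  field_simp
  ring

theorem g3_le {v : ℝ} (hv1 : 1 ≤ v) (hv3 : v ≤ 3) : g3 v ≤ 25 / 128 := by
  rw [g3, div_le_div_iff₀ (by positivity) (by norm_num)]
  have e : 25 * (4 * (1 + v) ^ 3 * (3 + v)) - v * (3 * v + 1) ^ 2 * 128 =
      4 * ((3 - v) * (25 + 81 * v + 63 * v ^ 2 - 25 * v ^ 3)) := by ring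
  have h : 0 ≤ 25 + 81 * v + 63 * v ^ 2 - 25 * v ^ 3 := by
    have : 0 ≤ v ^ 2 * (3 - v) := by have := sub_nonneg.2 hv3; positivity
    nlinarith
  have := mul_nonneg (sub_nonneg.2 hv3) h
  linarith

theorem g3_le' {v : ℝ} (hv1 : 1 ≤ v) (hv3 : v ≤ 9 / 4) : g3 v ≤ 3 / 16 := by
  rw [g3, div_le_div_iff₀ (by positivity) (by norm_num)]
  have e : 3 * (4 * (1 + v) ^ 3 * (3 + v)) - v * (3 * v + 1) ^ 2 * 16 =
      4 * (3 * v ^ 4 - 18 * v ^ 3 + 12 * v ^ 2 + 26 * v + 9) := by ring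
  have h : 0 ≤ 3 * v ^ 4 - 18 * v ^ 3 + 12 * v ^ 2 + 26 * v + 9 := by
    have h0 : 0 ≤ 9 / 4 - v := by linarith
    have h1 : 0 ≤ v - 1 := by linarith
    nlinarith [mul_nonneg h0 h1, mul_nonneg (mul_nonneg h0 h1) h1,
      mul_nonneg (mul_nonneg (mul_nonneg h0 h1) h1) h0, sq_nonneg (v * (9 / 4 - v)),
      mul_nonneg (mul_nonneg h0 h0) h1]
  linarith

section
variable {G : Type*} [NormedAddCommGroup G] [NormedSpace ℝ G] [FiniteDimensional ℝ G]
  [MeasurableSpace G] [BorelSpace G] {μ : Measure G} [μ.IsAddHaarMeasure]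

theorem T_rf (hμ : μ.map (fun x => -x) = μ) (A B C : ConvexBody G) :
    T μ (rf A) (rf B) (rf C) = T μ A B C := by
  have h := V_rf μ {A, B, C} hμ
  unfold T
  rw [← h]
  rfl

theorem rf_rf (K : ConvexBody G) : rf (rf K) = K := by
  unfold rf
  rw [img_img]
  refine SetLike.coe_injective ?_
  show ((-(ContinuousLinearMap.id ℝ G)).comp (-(ContinuousLinearMap.id ℝ G))) '' (K : Set G) =
    (K : Set G)
  simp

theorem T_harm (h3 : finrank ℝ G = 3) {K W : ConvexBody G} (hW : IsHarm K W)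
    (hpos : ∀ f : G →L[ℝ] ℝ, f ≠ 0 → 0 < sp K f) (B C : ConvexBody G) :
    T μ W B C * (T μ K B C + T μ (rf K) B C) ≤ T μ K B C * T μ (rf K) B C :=
  V_harm μ hW hpos {B, C} (by rw [h3]; rfl)

/-- the volume of the difference body -/
theorem vl_diff (h3 : finrank ℝ G = 3) (hμ : μ.map (fun x => -x) = μ) (K : ConvexBody G) :
    vl μ (K + rf K) = 2 * vl μ K + 6 * T μ K K (rf K) := by
  have hTn : T μ (rf K) (rf K) (rf K) = T μ K K K := T_rf hμ K K K
  have hu2 : T μ K (rf K) (rf K) = T μ K K (rf K) := by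
    have h := T_rf (μ := μ) hμ K (rf K) (rf K)
    rw [rf_rf] at h
    rw [← h, T_swap12, T_swap23]
  have eKNK : T μ K (rf K) K = T μ K K (rf K) := by rw [T_swap23]
  have eNKK : T μ (rf K) K K = T μ K K (rf K) := by rw [T_swap12, eKNK]
  have eNNK : T μ (rf K) (rf K) K = T μ K K (rf K) := by rw [T_swap23, T_swap12, hu2]
  have eNKN : T μ (rf K) K (rf K) = T μ K K (rf K) := by rw [T_swap12, hu2]
  rw [← T_self h3, ← T_self h3, T_add h3, T_add2 h3, T_add2 h3, T_add3 h3, T_add3 h3, T_add3 h3,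
    T_add3 h3, hTn, eKNK, eNKK, eNNK, eNKN, hu2]
  ring

/-- **the volume of the harmonic body in dimension three** -/
theorem vol_three (h3 : finrank ℝ G = 3) (hμ : μ.map (fun x => -x) = μ) {K W : ConvexBody G}
    (hW : IsHarm K W) (hpos : ∀ f : G →L[ℝ] ℝ, f ≠ 0 → 0 < sp K f) (hsym : rf W = W)
    (hK : 0 < vl μ K) {ε : ℝ≥0} (hε : 0 < ε) (hεW : ε • K ≤ W) (hM : T μ K K (rf K) ≤ 3 * vl μ K) :
    1 ≤ T μ K K (rf K) / vl μ K ∧ vl μ W ≤ g3 (T μ K K (rf K) / vl μ K) * vl μ K := by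
  set c := vl μ K with hc
  have hTc : T μ K K K = c := T_self h3 K
  set N := rf K with hN
  have hrN : rf N = K := rf_rf K
  have hTn : T μ N N N = c := by rw [← hTc, hN, T_rf hμ]
  set u := T μ K K N with hu
  have hu2 : T μ K N N = u := by
    have h := T_rf (μ := μ) hμ K N N
    rw [hrN] at h
    rw [← h, hu, ← hN, T_swap12, T_swap23]
  have eKNK : T μ K N K = u := by rw [T_swap23]
  have eNKK : T μ N K K = u := by rw [T_swap12, eKNK]
  have eNNK : T μ N N K = u := by rw [T_swap23, T_swap12, hu2]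
  have eNKN : T μ N K N = u := by rw [T_swap12, hu2]
  -- positivity
  have monoW : ∀ B C : ConvexBody G, (ε : ℝ) * T μ K B C ≤ T μ W B C := by
    intro B C
    rw [← T_smul h3]
    exact T_mono h3 hεW B C
  have hε' : (0 : ℝ) < ε := by exact_mod_cast hε
  -- `u ≥ c`
  have hcu : c ≤ u := by
    have h3' := bm_real μ K N (a := c ^ ((1 : ℝ) / 3)) (b := c ^ ((1 : ℝ) / 3))
      (by positivity) (by positivity)
      (by rw [h3, ← Real.rpow_natCast, ← Real.rpow_mul hK.le]; norm_num; exact hc.le)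
      (by rw [h3, ← Real.rpow_natCast, ← Real.rpow_mul hK.le, ← T_self h3 N, hTn]; norm_num)
    have h4 : (c ^ ((1 : ℝ) / 3) + c ^ ((1 : ℝ) / 3)) ^ finrank ℝ G = 8 * c := by
      rw [h3]
      have : (c ^ ((1 : ℝ) / 3)) ^ 3 = c := by
        rw [← Real.rpow_natCast, ← Real.rpow_mul hK.le]; norm_num
      calc (c ^ ((1 : ℝ) / 3) + c ^ ((1 : ℝ) / 3)) ^ 3 = 8 * (c ^ ((1 : ℝ) / 3)) ^ 3 := by ring
        _ = _ := by rw [this]
    rw [h4, hN, vl_diff h3 hμ] at h3'
    linarith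
  have hu0 : 0 < u := lt_of_lt_of_le hK hcu
  set p := T μ W K K with hp
  set q := T μ W K N with hq
  have hWNN : T μ W N N = p := by
    have h := T_rf (μ := μ) hμ W N N
    rw [hrN, hsym] at h
    rw [← h]
  have hWNK : T μ W N K = q := by rw [T_swap23]
  have hp0 : 0 < p := by
    have := monoW K K
    rw [hTc] at this
    exact lt_of_lt_of_le (by positivity) this
  have hq0 : 0 < q := lt_of_lt_of_le (by positivity : 0 < (ε : ℝ) * u) (monoW K N)
  have i1 : p * (c + u) ≤ c * u := by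
    have h := T_harm (μ := μ) h3 hW hpos K K
    rwa [← hN, hTc, eNKK] at h
  have i2 : q * (u + u) ≤ u * u := by
    have h := T_harm (μ := μ) h3 hW hpos K N
    rwa [← hN, eNKN] at h
  set y := T μ W W K with hy
  have hWWN : T μ W W N = y := by
    have h := T_rf (μ := μ) hμ W W N
    rw [hrN, hsym] at h
    rw [← h]
  have hy0 : 0 ≤ y := T_nonneg h3 _ _ _
  -- Alexandrov-Fenchel with `u K + c N`
  have i3 : y * (c * u * (3 * u + c)) ≤ (u * p + c * q) ^ 2 := by
    set X : ConvexBody G := (Real.toNNReal u) • K + (Real.toNNReal c) • N with hX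
    have cu : ((Real.toNNReal u : ℝ≥0) : ℝ) = u := Real.coe_toNNReal _ hu0.le
    have cc : ((Real.toNNReal c : ℝ≥0) : ℝ) = c := Real.coe_toNNReal _ hK.le
    have eXKK : T μ X K K = u * c + c * u := by
      rw [hX, T_add h3, T_smul h3, T_smul h3, cu, cc, hTc, eNKK]
    have eXXK : T μ X X K = c * u * (3 * u + c) := by
      rw [hX, T_add h3, T_smul h3, T_smul h3, T_add2 h3, T_add2 h3, T_smul2 h3, T_smul2 h3,
        T_smul2 h3, T_smul2 h3, cu, cc, hTc, eNKK, eKNK, eNNK]
      ring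
    have eWXK : T μ W X K = u * p + c * q := by
      rw [hX, T_add2 h3, T_smul2 h3, T_smul2 h3, cu, cc, hWNK]
    have h := af3 (μ := μ) h3 W X K (by rw [hTc]; exact hK) hp0 (by rw [eXKK]; positivity)
    rwa [eXXK, eWXK] at h
  -- Alexandrov-Fenchel with `K + N`
  have eWKW : T μ W K W = y := by rw [T_swap23]
  have eWNW : T μ W N W = y := by rw [T_swap23, hWWN]
  have eKKW : T μ K K W = p := by rw [T_swap23, T_swap12]
  have eKNW : T μ K N W = q := by rw [T_swap23, T_swap12]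
  have eNKW : T μ N K W = q := by rw [T_swap12, eKNW]
  have eNNW : T μ N N W = p := by rw [T_swap23, T_swap12, hWNN]
  have hww : 0 < T μ W W W := by
    have h1 := T_mono (μ := μ) h3 hεW W W
    rw [T_smul h3] at h1
    have h2 : 0 < T μ K W W := by
      have h3' := T_mono (μ := μ) h3 hεW K W
      rw [T_smul h3, T_swap12 W] at h3'
      rw [eKKW] at h3'
      exact lt_of_lt_of_le (by positivity) h3'
    exact lt_of_lt_of_le (by positivity) h1
  have hyy : 0 < T μ K W W := by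
    have h3' := T_mono (μ := μ) h3 hεW K W
    rw [T_smul h3, T_swap12 W] at h3'
    rw [eKKW] at h3'
    exact lt_of_lt_of_le (by positivity) h3'
  have i4 : T μ W W W * (2 * p + 2 * q) ≤ (2 * y) ^ 2 := by
    have h := af3 (μ := μ) h3 W (K + N) W hww hww
      (by rw [T_add h3]; exact add_pos_of_pos_of_nonneg hyy (T_nonneg h3 _ _ _))
    rw [T_add h3, T_add2 h3, T_add2 h3, T_add2 h3, eWKW, eWNW, eKKW, eKNW, eNKW, eNNW] at h
    have e1 : p + q + (q + p) = 2 * p + 2 * q := by ring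
    have e2 : y + y = 2 * y := by ring
    rwa [e1, e2] at h
  -- conclusion
  have hc0 : c ≠ 0 := hK.ne'
  refine ⟨by rw [le_div_iff₀ hK]; linarith, ?_⟩
  have key := alg_three (v := u / c) (p := p / c) (q := q / c) (y := y / c) (w := T μ W W W / c)
    (by rw [le_div_iff₀ hK]; linarith) (by rw [div_le_iff₀ hK]; exact hM) (by positivity)
    (by positivity) (by positivity) ?_ ?_ ?_ ?_
  · rw [div_le_iff₀ hK] at key
    rw [← T_self h3 W]
    exact key
  · rw [div_mul_eq_mul_div, div_le_div_iff_of_pos_right hK]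
    have : p * (1 + u / c) = p * (c + u) / c := by field_simp
    rw [this, div_le_iff₀ hK]
    linarith
  · rw [← mul_div_assoc, div_le_div_iff_of_pos_right hK]
    nlinarith
  · have e1 : y / c * (u / c * (3 * (u / c) + 1)) = y * (c * u * (3 * u + c)) / c ^ 4 := by
      field_simp
    have e2 : (u / c * (p / c) + q / c) ^ 2 = (u * p + c * q) ^ 2 / c ^ 4 := by
      field_simp
    rw [e1, e2]
    exact div_le_div_of_nonneg_right i3 (by positivity)
  · have e1 : T μ W W W / c * (p / c + q / c) = T μ W W W * (p + q) / c ^ 2 := by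
      field_simp
    have e2 : 2 * (y / c) ^ 2 = 2 * y ^ 2 / c ^ 2 := by
      field_simp
    rw [e1, e2]
    refine div_le_div_of_nonneg_right ?_ (by positivity)
    nlinarith

end

end Pool.Agent.H590.M3

end
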