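import Pool.Agent.H590.M3.Mink2
import Pool.Agent.H590.M3.Three

/-!
# The volume of the harmonic body in dimension `n`
-/

set_option autoImplicit false
set_option linter.unusedSectionVars false

open MeasureTheory Set Multiset Module
open scoped Pointwise NNReal ENNReal

noncomputable section

namespace Pool.Agent.H590.M3

open Pool.Agent.TH650.MV

variable {G : Type*} [NormedAddCommGroup G] [NormedSpace ℝ G] [FiniteDimensional ℝ G]
  [MeasurableSpace G] [BorelSpace G] (μ : Measure G) [μ.IsAddHaarMeasure]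

/-- the inclusion inside a mixed volume, with free weights -/
theorem V_key {K W : ConvexBody G} (hW : IsHarm K W)
    (hpos : ∀ f : G →L[ℝ] ℝ, f ≠ 0 → 0 < sp K f) (s : Multiset (ConvexBody G))
    (hs : card s + 1 = finrank ℝ G) {P Q : ℝ} (hP : 0 < P) (hQ : 0 < Q)
    (h1 : V μ (K ::ₘ s) ≤ P) (h2 : V μ (rf K ::ₘ s) ≤ Q) :
    V μ (W ::ₘ s) ≤ P * Q / (P + Q) := by
  have h : 0 < P + Q := by linarith
  have hab : Real.toNNReal (Q / (P + Q)) + Real.toNNReal (P / (P + Q)) = 1 := by
    rw [← Real.toNNReal_add (by positivity) (by positivity), ← add_div, add_comm Q P,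
      div_self h.ne', Real.toNNReal_one]
  have h3 := V_mono μ (le_comb hW hpos hab) s hs
  rw [V_add μ _ _ s hs, V_smul μ _ _ s hs, V_smul μ _ _ s hs] at h3
  push_cast at h3
  rw [Real.coe_toNNReal _ (by positivity), Real.coe_toNNReal _ (by positivity)] at h3
  have e : P * Q / (P + Q) = (Q / (P + Q)) ^ 2 * P + (P / (P + Q)) ^ 2 * Q := by
    field_simp
    ring
  rw [e]
  refine h3.trans (add_le_add ?_ ?_)
  · exact mul_le_mul_of_nonneg_left h1 (by positivity)
  · exact mul_le_mul_of_nonneg_left h2 (by positivity)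

/-- **the harmonic triangle** -/
theorem chain {n : ℕ} (hn : finrank ℝ G = n) {K W : ConvexBody G} (hW : IsHarm K W)
    (hpos : ∀ f : G →L[ℝ] ℝ, f ≠ 0 → 0 < sp K f) (hK : 0 < vl μ K)
    (hG : ∀ i j : ℕ, i + j = n →
      V μ (replicate i K + replicate j (rf K)) ≤ ((i + j).choose i : ℝ) * vl μ K) :
    ∀ k i j : ℕ, i + j + k = n →
      V μ (replicate k W + (replicate i K + replicate j (rf K))) ≤
        ((i : ℝ) + j + 1) / (n + 1) * ((i + j).choose i : ℝ) * vl μ K := by
  intro k
  induction k with
  | zero =>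
    intro i j hij
    have h := hG i j (by omega)
    rw [replicate_zero, zero_add]
    have e : ((i : ℝ) + j + 1) / (n + 1) = 1 := by
      rw [← hij]
      push_cast
      rw [add_zero]
      exact div_self (by positivity)
    rw [e, one_mul]
    exact h
  | succ k ih =>
    intro i j hij
    have h1 := ih (i + 1) j (by omega)
    have h2 := ih i (j + 1) (by omega)
    have e1 : replicate k W + (replicate (i + 1) K + replicate j (rf K)) =
        K ::ₘ (replicate k W + (replicate i K + replicate j (rf K))) := by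
      rw [replicate_succ, cons_add, add_cons]
    have e2 : replicate k W + (replicate i K + replicate (j + 1) (rf K)) =
        rf K ::ₘ (replicate k W + (replicate i K + replicate j (rf K))) := by
      rw [replicate_succ, add_cons, add_cons]
    rw [e1] at h1
    rw [e2] at h2
    rw [replicate_succ, cons_add]
    have hn0 : (0 : ℝ) < n + 1 := by positivity
    have c1 : 0 < ((i + 1 + j).choose (i + 1) : ℝ) := by
      exact_mod_cast Nat.choose_pos (by omega)
    have c2 : 0 < ((i + (j + 1)).choose i : ℝ) := by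
      exact_mod_cast Nat.choose_pos (by omega)
    refine (V_key μ hW hpos _ (by simp only [card_add, card_replicate]; omega) ?_ ?_ h1 h2).trans
      (le_of_eq ?_)
    · push_cast
      positivity
    · push_cast
      positivity
    -- the identity for the binomial coefficients
    have hc0 : 0 < ((i + j).choose i : ℝ) := by exact_mod_cast Nat.choose_pos (by omega)
    have b1 : ((i + 1 + j).choose (i + 1) : ℝ) * (i + 1) = ((i : ℝ) + j + 1) * ((i + j).choose i : ℝ) := by
      have := Nat.add_one_mul_choose_eq (i + j) i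
      have h3 : (i + j + 1) * (i + j).choose i = (i + 1 + j).choose (i + 1) * (i + 1) := by
        rw [show i + 1 + j = i + j + 1 by omega]
        exact this
      have h4 : (((i + j + 1) * (i + j).choose i : ℕ) : ℝ) =
          (((i + 1 + j).choose (i + 1) * (i + 1) : ℕ) : ℝ) := by rw [h3]
      push_cast at h4
      linarith
    have b2 : ((i + (j + 1)).choose i : ℝ) * (j + 1) = ((i : ℝ) + j + 1) * ((i + j).choose i : ℝ) := by
      have := Nat.add_one_mul_choose_eq (i + j) j
      have h3 : (i + j + 1) * (i + j).choose i = (i + (j + 1)).choose i * (j + 1) := by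
        rw [show (i + j).choose i = (i + j).choose j from Nat.choose_symm_add,
          show (i + (j + 1)).choose i = (i + (j + 1)).choose (j + 1) from Nat.choose_symm_add,
          show i + (j + 1) = i + j + 1 by omega]
        exact this
      have h4 : (((i + j + 1) * (i + j).choose i : ℕ) : ℝ) =
          (((i + (j + 1)).choose i * (j + 1) : ℕ) : ℝ) := by rw [h3]
      push_cast at h4
      linarith
    have b1' : ((i + 1 + j).choose (i + 1) : ℝ) = ((i : ℝ) + j + 1) * ((i + j).choose i : ℝ) / (i + 1) := by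
      rw [← b1]; field_simp
    have b2' : ((i + (j + 1)).choose i : ℝ) = ((i : ℝ) + j + 1) * ((i + j).choose i : ℝ) / (j + 1) := by
      rw [← b2]; field_simp
    rw [b1', b2']
    push_cast
    have hi1 : (0 : ℝ) < i + 1 := by positivity
    have hj1 : (0 : ℝ) < j + 1 := by positivity
    have hij1 : (0 : ℝ) < (i : ℝ) + j + 1 := by positivity
    have hij2 : (0 : ℝ) < (i : ℝ) + j + 2 := by positivity
    have hK' := hK.ne'
    have e3 : (i : ℝ) + 1 + j + 1 = (i : ℝ) + j + 2 := by ring
    have e4 : (i : ℝ) + (j + 1) + 1 = (i : ℝ) + j + 2 := by ring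
    rw [e3, e4]
    set X := ((i : ℝ) + j + 2) / (n + 1) * vl μ K * (((i : ℝ) + j + 1) * ((i + j).choose i : ℝ)) with hX
    have hX0 : 0 < X := by rw [hX]; positivity
    have e5 : ((i : ℝ) + j + 2) / (n + 1) * (((i : ℝ) + j + 1) * ((i + j).choose i : ℝ) / (i + 1)) *
        vl μ K = X / (i + 1) := by rw [hX]; ring
    have e6 : ((i : ℝ) + j + 2) / (n + 1) * (((i : ℝ) + j + 1) * ((i + j).choose i : ℝ) / (j + 1)) *
        vl μ K = X / (j + 1) := by rw [hX]; ring
    rw [e5, e6]
    have e7 : X / (i + 1) * (X / (j + 1)) / (X / (i + 1) + X / (j + 1)) = X / ((i : ℝ) + j + 2) := by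
      have : X / (i + 1) + X / (j + 1) = X * ((i : ℝ) + j + 2) / ((i + 1) * (j + 1)) := by
        field_simp; ring
      rw [this]
      field_simp
    rw [e7, hX]
    field_simp

/-- **the volume of the harmonic body in dimension `n = m + 2`** -/
theorem vol_gen {m : ℕ} (hm : finrank ℝ G = m + 2) (hμ : μ.map (fun x => -x) = μ)
    {K W : ConvexBody G} (hW : IsHarm K W) (hpos : ∀ f : G →L[ℝ] ℝ, f ≠ 0 → 0 < sp K f)
    (hsym : rf W = W) (hK : 0 < vl μ K) {ε : ℝ≥0} (hε : 0 < ε) (hεW : ε • K ≤ W)
    (hG : ∀ i j : ℕ, i + j = m + 2 →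
      V μ (replicate i K + replicate j (rf K)) ≤ ((i + j).choose i : ℝ) * vl μ K) :
    vl μ W ≤ 8 / (9 * ((m : ℝ) + 3)) * vl μ K := by
  set s := replicate m W with hs
  have hcs : card s = m := by rw [hs, card_replicate]
  set α := V μ (K ::ₘ K ::ₘ s) with hα
  set β := V μ (K ::ₘ rf K ::ₘ s) with hβ
  set z := V μ (K ::ₘ W ::ₘ s) with hz
  have hsr : s.map rf = s := by rw [hs, map_replicate, hsym]
  have hNN : V μ (rf K ::ₘ rf K ::ₘ s) = α := by
    have h := V_rf μ (K ::ₘ K ::ₘ s) hμ
    rw [map_cons, map_cons, hsr] at h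
    exact h
  have hNW : V μ (rf K ::ₘ W ::ₘ s) = z := by
    have h := V_rf μ (K ::ₘ W ::ₘ s) hμ
    rw [map_cons, map_cons, hsr, hsym] at h
    exact h
  -- positivity
  have hε' : (0 : ℝ) < ε := by exact_mod_cast hε
  have hα0 : 0 < α := by
    have h1 := V_mono_replicate μ hεW m (K ::ₘ K ::ₘ 0) (by
      rw [card_cons, card_cons, card_zero, hm]; omega)
    rw [V_smul_replicate μ ε K m _ (by rw [card_cons, card_cons, card_zero, hm]; omega)] at h1
    have e1 : replicate m K + (K ::ₘ K ::ₘ 0) = replicate (finrank ℝ G) K := by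
      rw [hm, show m + 2 = m + 1 + 1 from rfl, replicate_succ, replicate_succ, add_cons, add_cons,
        add_zero]
    have e2 : replicate m W + (K ::ₘ K ::ₘ 0) = K ::ₘ K ::ₘ s := by
      rw [add_cons, add_cons, add_zero]
    rw [e1, e2, V_self] at h1
    exact lt_of_lt_of_le (by positivity) h1
  have hW0 : 0 < vl μ W := by
    have h1 := V_mono_replicate μ hεW (m + 2) 0 (by rw [card_zero, hm]; omega)
    rw [V_smul_replicate μ ε K (m + 2) _ (by rw [card_zero, hm]; omega), add_zero, add_zero, ← hm,
      V_self, V_self] at h1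
    exact lt_of_lt_of_le (by positivity) h1
  have hβ0 : 0 ≤ β := V_nonneg μ _ (by rw [card_cons, card_cons, hcs, hm])
  have hz0 : 0 ≤ z := V_nonneg μ _ (by rw [card_cons, card_cons, hcs, hm])
  -- the bound of `α`
  have hα1 : α ≤ 3 / ((m : ℝ) + 3) * vl μ K := by
    have h := chain μ hm hW hpos hK hG m 2 0 (by omega)
    have e1 : replicate m W + (replicate 2 K + replicate 0 (rf K)) = K ::ₘ K ::ₘ s := by
      rw [replicate_zero, add_zero, show (2 : ℕ) = 0 + 1 + 1 from rfl, replicate_succ,
        replicate_succ, replicate_zero, add_cons, add_cons, add_zero]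
    rw [e1] at h
    refine h.trans (le_of_eq ?_)
    push_cast
    norm_num
    left
    rw [show (m : ℝ) + 2 + 1 = m + 3 by ring]
  -- the harmonic inequality
  have i1 : z * (α + β) ≤ α * β := by
    have h := V_harm μ hW hpos (K ::ₘ s) (by rw [card_cons, hcs, hm])
    rw [cons_swap W K, cons_swap (rf K) K] at h
    exact h
  -- Minkowski's inequality
  have i2 : vl μ W * (2 * α + 2 * β) ≤ (2 * z) ^ 2 := by
    have h := mink2 μ hm W (K + rf K) hW0
    have e1 : V μ (replicate 2 (K + rf K) + replicate m W) = 2 * α + 2 * β := by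
      rw [V_binom μ K (rf K) 2 _ (by rw [card_replicate, hm])]
      rw [Finset.sum_range_succ, Finset.sum_range_succ, Finset.sum_range_succ,
        Finset.sum_range_zero]
      have a0 : replicate 0 K + replicate (2 - 0) (rf K) + replicate m W =
          rf K ::ₘ rf K ::ₘ s := rfl
      have a1 : replicate 1 K + replicate (2 - 1) (rf K) + replicate m W =
          K ::ₘ rf K ::ₘ s := rfl
      have a2 : replicate 2 K + replicate (2 - 2) (rf K) + replicate m W =
          K ::ₘ K ::ₘ s := rfl
      rw [a0, a1, a2, hNN, ← hα, ← hβ]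
      norm_num
      ring
    have e2 : V μ (replicate 1 (K + rf K) + replicate (m + 1) W) = 2 * z := by
      have a0 : replicate 1 (K + rf K) + replicate (m + 1) W = (K + rf K) ::ₘ W ::ₘ s := rfl
      rw [a0, V_add μ _ _ _ (by rw [card_cons, hcs, hm]), hNW, ← hz]
      ring
    rw [e1, e2] at h
    exact h
  set w := vl μ W with hw
  have i3 : w ≤ 8 / 27 * α := by
    rcases hβ0.eq_or_lt with hb | hb
    · -- then `z = 0` and `w = 0`
      exfalso
      rw [← hb] at i1 i2
      have hz1 : z ≤ 0 := by nlinarith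
      have hz2 : z = 0 := le_antisymm hz1 hz0
      rw [hz2] at i2
      have : 0 < w * (2 * α + 2 * 0) := by positivity
      linarith
    · have j1 : w * (α + β) ^ 3 ≤ 2 * (α * β) ^ 2 := by
        have j2 : w * (α + β) ≤ 2 * z ^ 2 := by nlinarith
        have j3 : (z * (α + β)) ^ 2 ≤ (α * β) ^ 2 := pow_le_pow_left₀ (by positivity) i1 2
        calc w * (α + β) ^ 3 = w * (α + β) * (α + β) ^ 2 := by ring
          _ ≤ 2 * z ^ 2 * (α + β) ^ 2 := mul_le_mul_of_nonneg_right j2 (by positivity)
          _ = 2 * (z * (α + β)) ^ 2 := by ring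
          _ ≤ _ := by linarith
      have j4 : 27 / 4 * (α * β ^ 2) ≤ (α + β) ^ 3 := by
        have : (α + β) ^ 3 - 27 / 4 * (α * β ^ 2) = (2 * α - β) ^ 2 * (α + 4 * β) / 4 := by ring
        have h5 : 0 ≤ (2 * α - β) ^ 2 * (α + 4 * β) / 4 := by positivity
        linarith
      have j5 : w * (27 / 4 * (α * β ^ 2)) ≤ 2 * (α * β) ^ 2 :=
        (mul_le_mul_of_nonneg_left j4 hW0.le).trans j1
      have j6 : w * (α * β ^ 2) ≤ 8 / 27 * α * (α * β ^ 2) := by nlinarith
      exact le_of_mul_le_mul_right j6 (by positivity)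
  have e : 8 / (9 * ((m : ℝ) + 3)) * vl μ K = 8 / 27 * (3 / ((m : ℝ) + 3) * vl μ K) := by
    field_simp
    ring
  rw [e]
  exact i3.trans (mul_le_mul_of_nonneg_left hα1 (by norm_num))

end Pool.Agent.H590.M3

end
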