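import Pool.Agent.H590.M3.MV3
import Pool.Graph.R_seed8.TH650.MV.ApiA

/-!
# The harmonic body and mixed volumes

`W ⊆ a² K + (1 - a)² (-K)` for all `a ∈ [0, 1]`, hence
`V(W, …) (V(K, …) + V(-K, …)) ≤ V(K, …) V(-K, …)`.
-/

set_option autoImplicit false
set_option linter.unusedSectionVars false

open MeasureTheory Set Multiset Module
open scoped Pointwise NNReal ENNReal

noncomputable section

namespace Pool.Agent.H590.M3

open Pool.Agent.TH650.MV

section
variable {G : Type*} [NormedAddCommGroup G] [NormedSpace ℝ G]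

/-- the reflected body -/
def rf (K : ConvexBody G) : ConvexBody G := img (-(ContinuousLinearMap.id ℝ G)) K

theorem sp_rf (K : ConvexBody G) (f : G →L[ℝ] ℝ) : sp (rf K) f = sp K (-f) := by
  unfold rf
  rw [sp_img]
  congr 1
  ext x
  simp

/-- `W` is contained in the harmonic body of `K` -/
def IsHarm (K W : ConvexBody G) : Prop :=
  ∀ x ∈ W, ∀ f : G →L[ℝ] ℝ, |f x| * (sp K f + sp K (-f)) ≤ sp K f * sp K (-f)

theorem le_comb {K W : ConvexBody G} (hW : IsHarm K W) (hpos : ∀ f : G →L[ℝ] ℝ, f ≠ 0 → 0 < sp K f)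
    {a b : ℝ≥0} (hab : a + b = 1) : W ≤ (a ^ 2) • K + (b ^ 2) • rf K := by
  rw [le_iff_sp]
  intro f
  rw [sp_le_iff]
  intro x hx
  rw [sp_add, sp_smul, sp_smul, sp_rf]
  have hab' : (a : ℝ) + b = 1 := by exact_mod_cast hab
  rcases eq_or_ne f 0 with rfl | hf
  · have h0 : sp K (0 : G →L[ℝ] ℝ) = 0 := by
      obtain ⟨y, _, hy⟩ := exists_sp K (0 : G →L[ℝ] ℝ)
      rw [← hy]; rfl
    rw [neg_zero, h0]
    simp
  · have h1 := hpos f hf
    have h2 := hpos (-f) (neg_ne_zero.2 hf)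
    have h3 := hW x hx f
    have h4 := le_abs_self (f x)
    push_cast
    set s := sp K f with hs
    set t := sp K (-f) with ht
    have h5 : f x * (s + t) ≤ s * t := (mul_le_mul_of_nonneg_right h4 (by linarith)).trans h3
    have h6 : s * t ≤ ((a : ℝ) ^ 2 * s + (b : ℝ) ^ 2 * t) * (s + t) := by
      have hb : (b : ℝ) = 1 - a := by linarith
      rw [hb]
      nlinarith [sq_nonneg ((a : ℝ) * s - (1 - a) * t)]
    exact le_of_mul_le_mul_right (h5.trans h6) (by linarith)

end

section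
variable {G : Type*} [NormedAddCommGroup G] [NormedSpace ℝ G] [FiniteDimensional ℝ G]
  [MeasurableSpace G] [BorelSpace G] (μ : Measure G) [μ.IsAddHaarMeasure]

/-- the harmonic inequality for mixed volumes -/
theorem V_harm {K W : ConvexBody G} (hW : IsHarm K W)
    (hpos : ∀ f : G →L[ℝ] ℝ, f ≠ 0 → 0 < sp K f) (s : Multiset (ConvexBody G))
    (hs : card s + 1 = finrank ℝ G) :
    V μ (W ::ₘ s) * (V μ (K ::ₘ s) + V μ (rf K ::ₘ s)) ≤ V μ (K ::ₘ s) * V μ (rf K ::ₘ s) := by
  set p := V μ (K ::ₘ s) with hp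
  set q := V μ (rf K ::ₘ s) with hq
  have hp0 : 0 ≤ p := V_nonneg μ _ (by rw [card_cons]; exact hs)
  have hq0 : 0 ≤ q := V_nonneg μ _ (by rw [card_cons]; exact hs)
  have key : ∀ a b : ℝ≥0, a + b = 1 → V μ (W ::ₘ s) ≤ (a : ℝ) ^ 2 * p + (b : ℝ) ^ 2 * q := by
    intro a b hab
    refine (V_mono μ (le_comb hW hpos hab) s hs).trans (le_of_eq ?_)
    rw [V_add μ _ _ s hs, V_smul μ _ _ s hs, V_smul μ _ _ s hs]
    push_cast
    rfl
  rcases (add_nonneg hp0 hq0).eq_or_lt with h | h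
  · rw [← h, mul_zero]
    exact mul_nonneg hp0 hq0
  · have h1 := key (Real.toNNReal (q / (p + q))) (Real.toNNReal (p / (p + q))) (by
      rw [← Real.toNNReal_add (by positivity) (by positivity), ← add_div, add_comm q p,
        div_self h.ne', Real.toNNReal_one])
    rw [Real.coe_toNNReal _ (by positivity), Real.coe_toNNReal _ (by positivity)] at h1
    have h2 : (q / (p + q)) ^ 2 * p + (p / (p + q)) ^ 2 * q = p * q / (p + q) := by
      field_simp
      ring
    rw [h2] at h1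
    rwa [le_div_iff₀ h] at h1

/-- reflection does not change mixed volumes -/
theorem V_rf (s : Multiset (ConvexBody G)) (hμ : μ.map (fun x => -x) = μ) :
    V μ (s.map rf) = V μ s := by
  have h := V_equiv μ (ContinuousLinearEquiv.neg ℝ : G ≃L[ℝ] G) s
  have e : (μ.map ((ContinuousLinearEquiv.neg ℝ : G ≃L[ℝ] G))) = μ := hμ
  rw [e] at h
  rw [← h]
  rfl

end

end Pool.Agent.H590.M3

end
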