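import Pool.Agent.H590.M3.Body
import Pool.Agent.H276.NM.Euc

/-!
# The non-symmetric Mahler inequality in low dimension: 96% of the conjectured value in `ℝ³`

For every convex body `K` of `ℝ³` and every interior point `z`

`|K| |(K - z)°| ≥ 16 (1+v)³ (3+v) / (3 v (3v+1)²)`,  `v = V(K,K,-K)/|K| = (|K-K|/|K| - 2)/6 ∈ [1, 3]`,

sharp (`4³/3!`) for symmetric bodies; the right side is at least `512/75` (the conjecture is
`64/9`, so `M_∞(K) = 3! |K| |K°| ≥ 40.96` instead of `42.66…`), and it is at least `64/9`, so that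
Mahler's inequality holds, if `|K - K| ≤ 15.5 |K|` (always `8 |K| ≤ |K - K| ≤ 20 |K|`).
For every `n ≥ 2`: `n! |K| |(K - z)°| ≥ (9 (n + 1) / 8) 2ⁿ` (sharp for `n = 2`).

Outline.  Let `h` be the support function of `K - z` and
`W = {x : |⟨x, u⟩| (h(u) + h(-u)) ≤ h(u) h(-u) for all u}`; by the library theorem
`Pool.Graph.R_seed8.W679.AM`, `|W| |(K - z)°| ≥ 2ⁿ/n!`.  New are upper bounds for `|W|`:
`W ⊆ a² K + (1-a)² (-K)` (up to translation) for all `a ∈ [0,1]`; used inside mixed volumes, with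
the best `a` each time, this gives `V(W, …) ≤ V(K, …) V(-K, …) / (V(K, …) + V(-K, …))`, hence with
Godbersen's inequality (library, `TH650.GB`) the harmonic triangle
`V(W[k], K[i], -K[j]) ≤ (n+1-k)/(n+1) C(n-k, i) |K|`.  With Minkowski's quadratic inequality
`|W| V(L, L, W, …, W) ≤ V(L, W, …, W)²`, `L = K - K`: `|W| ≤ 8/(9(n+1)) |K|`.  For `n = 3` the
Alexandrov-Fenchel inequality `V(W,W,K) V(X,X,K) ≤ V(W,X,K)²` with `X = v K - K` (derived from the
Brunn-Minkowski inequality) gives `|W| ≤ v (3v+1)² / (4 (1+v)³ (3+v)) |K| ≤ 25/128 |K|`.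
-/

set_option autoImplicit false

noncomputable section

open MeasureTheory
open scoped RealInnerProductSpace Pointwise

namespace Pool.Agent.Results.MP_5f4cdd_gt.LowDimension

variable {n : ℕ}

/-- convex bodies in `ℝⁿ`, in any position -/
def Body (K : Set (EuclideanSpace ℝ (Fin n))) : Prop :=
  Convex ℝ K ∧ IsCompact K ∧ (interior K).Nonempty

/-- the polar body `(K - z)°` -/
def polar (K : Set (EuclideanSpace ℝ (Fin n))) (z : EuclideanSpace ℝ (Fin n)) :
    Set (EuclideanSpace ℝ (Fin n)) := {y | ∀ x ∈ K, ⟪x - z, y⟫ ≤ 1}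

/-- the support function `h_K = h_{∞,K}` -/
def support (K : Set (EuclideanSpace ℝ (Fin n))) (y : EuclideanSpace ℝ (Fin n)) : ℝ :=
  sSup ((fun x => ⟪x, y⟫) '' K)

/-- the `L^p` support function `h_{p,K}(y) = (1/p) log (|K|⁻¹ ∫_K exp (p ⟨x, y⟩) dx)` -/
def supportLp (p : ℝ) (K : Set (EuclideanSpace ℝ (Fin n))) (y : EuclideanSpace ℝ (Fin n)) : ℝ :=
  (1 / p) * Real.log ((∫ x in K, Real.exp (p * ⟪x, y⟫)) / volume.real K)

/-- the Mahler volume `M_∞(K) = |K| ∫ exp (-h_K)` -/
def mahlerInf (K : Set (EuclideanSpace ℝ (Fin n))) : ENNReal :=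
  volume K * ∫⁻ y : EuclideanSpace ℝ (Fin n), ENNReal.ofReal (Real.exp (-support K y))

/-- the `L^p` Mahler volume `M_p(K) = |K| ∫ exp (-h_{p,K})` -/
def mahlerLp (p : ℝ) (K : Set (EuclideanSpace ℝ (Fin n))) : ENNReal :=
  volume K * ∫⁻ y : EuclideanSpace ℝ (Fin n), ENNReal.ofReal (Real.exp (-supportLp p K y))

/-- `v = (|K - K| / |K| - 2) / 6`, for `n = 3` this is `V(K, K, -K) / |K|` -/
def asym (K : Set (EuclideanSpace ℝ (Fin n))) : ℝ := (volume.real (K - K) / volume.real K - 2) / 6

/-- `c_p = (1 + 1/(2p))^(1 + 1/(2p)) (p/(2π))^(1/(2p))` -/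
def cp (p : ℝ) : ℝ := (1 + 1 / (2 * p)) ^ (1 + 1 / (2 * p)) * (p / (2 * Real.pi)) ^ (1 / (2 * p))

theorem cp_nonneg {p : ℝ} (hp : 0 < p) : 0 ≤ cp p := by
  unfold cp
  have := Real.pi_pos
  positivity

/-- from the volume product to all Mahler volumes -/
theorem all_of_product {D : ℝ} (hn : 1 ≤ n) (hD : 0 ≤ D) (K : Set (EuclideanSpace ℝ (Fin n)))
    (hK : Body K)
    (h : ∀ z ∈ interior K, D / n.factorial ≤ volume.real K * volume.real (polar K z)) :
    ENNReal.ofReal D ≤ mahlerInf K ∧
      ∀ p : ℝ, 0 < p → ENNReal.ofReal D ≤ mahlerLp p K ∧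
        ENNReal.ofReal (cp p ^ n * D ^ (1 + 1 / (2 * p))) ≤ mahlerLp p K := by
  obtain ⟨hv, hc, hi⟩ := hK
  set C := D ^ ((n : ℝ)⁻¹) with hC
  have hC0 : 0 ≤ C := Real.rpow_nonneg hD _
  have hCn : C ^ n = D := Real.rpow_inv_natCast_pow hD (by omega)
  have h1 : ∀ z ∈ interior K, C ^ n / n.factorial ≤
      volume.real K * volume.real (W679AM.plz K z) := by
    intro z hz
    rw [hCn]
    exact h z hz
  refine ⟨?_, fun p hp => ⟨?_, ?_⟩⟩
  · have := Pool.Agent.H276.NM.inf_all hC0 hc hv hi h1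
    rwa [hCn] at this
  · have := Pool.Agent.H276.NM.lp_all hC0 hc hv hi h1 hp
    rwa [hCn] at this
  · have h2 := Pool.Agent.H276.NM.lp_gain hC0 hc hv hi h1 hp
    have e : (C ^ (1 + 1 / (2 * p))) ^ n = D ^ (1 + 1 / (2 * p)) := by
      rw [← Real.rpow_natCast, ← Real.rpow_mul hC0, mul_comm, Real.rpow_mul hC0,
        Real.rpow_natCast, hCn]
    rw [mul_pow, e] at h2
    exact h2

/-- **The Mahler inequality in low dimension.** -/
theorem result :
    -- (1) dimension three
    (∀ K : Set (EuclideanSpace ℝ (Fin 3)), Body K →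
      (1 ≤ asym K ∧ asym K ≤ 3 ∧ ∀ z ∈ interior K,
        16 * (1 + asym K) ^ 3 * (3 + asym K) / (3 * asym K * (3 * asym K + 1) ^ 2) ≤
          volume.real K * volume.real (polar K z)) ∧
      (∀ z ∈ interior K, 512 / 75 ≤ volume.real K * volume.real (polar K z)) ∧
      (volume.real (K - K) ≤ 31 / 2 * volume.real K →
        (∀ z ∈ interior K, 64 / 9 ≤ volume.real K * volume.real (polar K z)) ∧
        ENNReal.ofReal (128 / 3) ≤ mahlerInf K) ∧
      ENNReal.ofReal (1024 / 25) ≤ mahlerInf K ∧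
      ∀ p : ℝ, 0 < p → ENNReal.ofReal (1024 / 25) ≤ mahlerLp p K ∧
        ENNReal.ofReal (cp p ^ 3 * (1024 / 25) ^ (1 + 1 / (2 * p))) ≤ mahlerLp p K) ∧
    -- (2) all dimensions
    (∀ n : ℕ, 2 ≤ n → ∀ K : Set (EuclideanSpace ℝ (Fin n)), Body K →
      (∀ z ∈ interior K, 9 * ((n : ℝ) + 1) / 8 * 2 ^ n / n.factorial ≤
        volume.real K * volume.real (polar K z)) ∧
      ENNReal.ofReal (9 * ((n : ℝ) + 1) / 8 * 2 ^ n) ≤ mahlerInf K ∧
      ∀ p : ℝ, 0 < p → ENNReal.ofReal (9 * ((n : ℝ) + 1) / 8 * 2 ^ n) ≤ mahlerLp p K ∧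
        ENNReal.ofReal (cp p ^ n * (9 * ((n : ℝ) + 1) / 8 * 2 ^ n) ^ (1 + 1 / (2 * p))) ≤
          mahlerLp p K) := by
  constructor
  · intro K hK
    obtain ⟨hv, hc, hi⟩ := id hK
    have hV : 0 < volume.real K := ENNReal.toReal_pos
      (lt_of_lt_of_le (isOpen_interior.measure_pos volume hi)
        (measure_mono interior_subset)).ne' hc.measure_lt_top.ne
    -- the product bound from a bound of `|W|`
    have prod : ∀ {g : ℝ}, 0 < g → (∀ z ∈ interior K,
        volume.real (W679AM.prz K z) ≤ g * volume.real K) → ∀ z ∈ interior K,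
        4 / 3 / g ≤ volume.real K * volume.real (polar K z) := by
      intro g hg h z hz
      have h1 := W679AM.asym_real hc hv hz
      have h2 := h z hz
      have h3 : (2 : ℝ) ^ 3 / (Nat.factorial 3 : ℕ) = 4 / 3 := by norm_num [Nat.factorial]
      rw [h3] at h1
      rw [div_le_iff₀ hg]
      refine h1.trans ((mul_le_mul_of_nonneg_right h2 measureReal_nonneg).trans (le_of_eq ?_))
      show g * volume.real K * volume.real (polar K z) = _
      ring
    obtain ⟨z0, hz0⟩ := hi
    have hb := Pool.Agent.H590.M3.prz_three hc hv hz0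
    have h1 : 1 ≤ asym K := hb.1
    have h3 : asym K ≤ 3 := hb.2.1
    have hall : ∀ z ∈ interior K,
        volume.real (W679AM.prz K z) ≤ Pool.Agent.H590.M3.g3 (asym K) * volume.real K :=
      fun z hz => (Pool.Agent.H590.M3.prz_three hc hv hz).2.2
    have hg : 0 < Pool.Agent.H590.M3.g3 (asym K) := by
      unfold Pool.Agent.H590.M3.g3
      have : 0 < asym K := by linarith
      positivity
    have hp0 := prod hg hall
    have hp1 : ∀ z ∈ interior K, 512 / 75 ≤ volume.real K * volume.real (polar K z) := by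
      intro z hz
      have := prod (g := 25 / 128) (by norm_num) (fun z hz => (hall z hz).trans
        (mul_le_mul_of_nonneg_right (Pool.Agent.H590.M3.g3_le h1 h3) hV.le)) z hz
      norm_num at this ⊢
      exact this
    have hp2 : volume.real (K - K) ≤ 31 / 2 * volume.real K →
        ∀ z ∈ interior K, 64 / 9 ≤ volume.real K * volume.real (polar K z) := by
      intro hd z hz
      have h94 : asym K ≤ 9 / 4 := by
        unfold asym
        have : volume.real (K - K) / volume.real K ≤ 31 / 2 := by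
          rw [div_le_iff₀ hV]; exact hd
        linarith
      have := prod (g := 3 / 16) (by norm_num) (fun z hz => (hall z hz).trans
        (mul_le_mul_of_nonneg_right (Pool.Agent.H590.M3.g3_le' h1 h94) hV.le)) z hz
      norm_num at this ⊢
      exact this
    have e3 : ((Nat.factorial 3 : ℕ) : ℝ) = 6 := by norm_num [Nat.factorial]
    obtain ⟨m1, m2⟩ := all_of_product (D := 1024 / 25) (by norm_num) (by norm_num) K hK
      (fun z hz => by
        have := hp1 z hz
        rw [e3]
        norm_num at this ⊢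
        exact this)
    refine ⟨⟨h1, h3, fun z hz => ?_⟩, hp1, fun hd => ⟨hp2 hd, ?_⟩, m1, m2⟩
    · refine le_trans (le_of_eq ?_) (hp0 z hz)
      unfold Pool.Agent.H590.M3.g3
      have : 0 < asym K := by linarith
      field_simp
      ring
    · exact (all_of_product (D := 128 / 3) (by norm_num) (by norm_num) K hK
        (fun z hz => by
          have := hp2 hd z hz
          rw [e3]
          norm_num at this ⊢
          exact this)).1
  · intro n hn K hK
    obtain ⟨hv, hc, hi⟩ := id hK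
    have hV : 0 < volume.real K := ENNReal.toReal_pos
      (lt_of_lt_of_le (isOpen_interior.measure_pos volume hi)
        (measure_mono interior_subset)).ne' hc.measure_lt_top.ne
    have hp : ∀ z ∈ interior K, 9 * ((n : ℝ) + 1) / 8 * 2 ^ n / n.factorial ≤
        volume.real K * volume.real (polar K z) := by
      intro z hz
      have h1 := W679AM.asym_real hc hv hz
      have h2 := Pool.Agent.H590.M3.prz_gen hn hc hv hz
      have h3 : (2 : ℝ) ^ n / n.factorial ≤
          8 / (9 * ((n : ℝ) + 1)) * (volume.real K * volume.real (polar K z)) := by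
        refine h1.trans ((mul_le_mul_of_nonneg_right h2 measureReal_nonneg).trans (le_of_eq ?_))
        show 8 / (9 * ((n : ℝ) + 1)) * volume.real K * volume.real (polar K z) = _
        ring
      have h4 : 9 * ((n : ℝ) + 1) / 8 * 2 ^ n / n.factorial =
          9 * ((n : ℝ) + 1) / 8 * (2 ^ n / n.factorial) := by ring
      rw [h4]
      refine (mul_le_mul_of_nonneg_left h3 (by positivity)).trans (le_of_eq ?_)
      field_simp
    exact ⟨hp, all_of_product (by omega) (by positivity) K hK hp⟩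

end Pool.Agent.Results.MP_5f4cdd_gt.LowDimension

end
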