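import Pool.Agent.H590.M3.Alg
import Pool.Graph.R_seed8.TH650.MV.Mix
import Pool.Graph.R_pool_sql_team_seeded_1e53cb71.Helper14K9.Iso.BM

/-!
# Mixed volumes in dimension three: the Alexandrov-Fenchel inequality
-/

set_option autoImplicit false
set_option linter.unusedSectionVars false

open MeasureTheory Set Multiset Module
open scoped Pointwise NNReal ENNReal

noncomputable section

namespace Pool.Agent.H590.M3

open Pool.Agent.TH650.MV

variable {G : Type*} [NormedAddCommGroup G] [NormedSpace ℝ G] [FiniteDimensional ℝ G]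
  [MeasurableSpace G] [BorelSpace G] (μ : Measure G) [μ.IsAddHaarMeasure]

/-- the Brunn-Minkowski inequality for the real volume -/
theorem bm_real (A B : ConvexBody G) {a b : ℝ} (ha : 0 ≤ a) (hb : 0 ≤ b)
    (hA : a ^ finrank ℝ G ≤ vl μ A) (hB : b ^ finrank ℝ G ≤ vl μ B) :
    (a + b) ^ finrank ℝ G ≤ vl μ (A + B) := by
  have h1 : ENNReal.ofReal (a ^ finrank ℝ G) ≤ μ (A : Set G) := by
    rw [← ENNReal.ofReal_toReal (A.isCompact.measure_lt_top (μ := μ)).ne]
    exact ENNReal.ofReal_le_ofReal hA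
  have h2 : ENNReal.ofReal (b ^ finrank ℝ G) ≤ μ (B : Set G) := by
    rw [← ENNReal.ofReal_toReal (B.isCompact.measure_lt_top (μ := μ)).ne]
    exact ENNReal.ofReal_le_ofReal hB
  have h3 := Pool.Agent.Helper14K9.Iso.bm_pow μ A.isCompact B.isCompact A.nonempty B.nonempty
    ha hb h1 h2
  have h4 : ((A + B : ConvexBody G) : Set G) = (A : Set G) + B := ConvexBody.coe_add A B
  rw [← h4, ← ENNReal.ofReal_toReal ((A + B).isCompact.measure_lt_top (μ := μ)).ne] at h3
  exact (ENNReal.ofReal_le_ofReal_iff ENNReal.toReal_nonneg).1 h3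

/-- the mixed volume of three bodies -/
def T (A B C : ConvexBody G) : ℝ := V μ {A, B, C}

variable {μ}

theorem T_swap12 (A B C : ConvexBody G) : T μ A B C = T μ B A C := by
  unfold T
  congr 1
  exact Multiset.cons_swap A B _

theorem T_swap23 (A B C : ConvexBody G) : T μ A B C = T μ A C B := by
  unfold T
  congr 1
  have h : B ::ₘ ({C} : Multiset (ConvexBody G)) = C ::ₘ {B} := Multiset.cons_swap B C 0
  show A ::ₘ B ::ₘ {C} = A ::ₘ C ::ₘ {B}
  rw [h]

theorem T_add (h3 : finrank ℝ G = 3) (A A' B C : ConvexBody G) :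
    T μ (A + A') B C = T μ A B C + T μ A' B C :=
  V_add μ A A' {B, C} (by rw [h3]; rfl)

theorem T_smul (h3 : finrank ℝ G = 3) (c : ℝ≥0) (A B C : ConvexBody G) :
    T μ (c • A) B C = c * T μ A B C :=
  V_smul μ c A {B, C} (by rw [h3]; rfl)

theorem T_nonneg (h3 : finrank ℝ G = 3) (A B C : ConvexBody G) : 0 ≤ T μ A B C :=
  V_nonneg μ _ (by rw [h3]; rfl)

theorem T_mono (h3 : finrank ℝ G = 3) {A A' : ConvexBody G} (h : A ≤ A') (B C : ConvexBody G) :
    T μ A B C ≤ T μ A' B C :=
  V_mono μ h {B, C} (by rw [h3]; rfl)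

theorem T_self (h3 : finrank ℝ G = 3) (A : ConvexBody G) : T μ A A A = vl μ A := by
  rw [← V_self μ A, h3]
  rfl

theorem T_add2 (h3 : finrank ℝ G = 3) (A B B' C : ConvexBody G) :
    T μ A (B + B') C = T μ A B C + T μ A B' C := by
  rw [T_swap12, T_add h3, T_swap12 B, T_swap12 B']

theorem T_add3 (h3 : finrank ℝ G = 3) (A B C C' : ConvexBody G) :
    T μ A B (C + C') = T μ A B C + T μ A B C' := by
  rw [T_swap23, T_add2 h3, T_swap23 A C, T_swap23 A C']

theorem T_smul2 (h3 : finrank ℝ G = 3) (c : ℝ≥0) (A B C : ConvexBody G) :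
    T μ A (c • B) C = c * T μ A B C := by
  rw [T_swap12, T_smul h3, T_swap12 B]

theorem T_smul3 (h3 : finrank ℝ G = 3) (c : ℝ≥0) (A B C : ConvexBody G) :
    T μ A B (c • C) = c * T μ A B C := by
  rw [T_swap23, T_smul2 h3, T_swap23 A C]

/-- the volume of a combination of three bodies -/
theorem vl_comb (h3 : finrank ℝ G = 3) (A B C : ConvexBody G) (x y z : ℝ≥0) :
    vl μ (x • A + y • B + z • C) =
      cub (T μ A A A) (T μ A A B) (T μ A B B) (T μ B B B) (T μ A A C) (T μ A B C) (T μ B B C)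
        (T μ A C C) (T μ B C C) (T μ C C C) x y z := by
  rw [← T_self h3]
  simp only [T_add h3, T_add2 h3, T_add3 h3, T_smul h3, T_smul2 h3, T_smul3 h3]
  have e1 : T μ A B A = T μ A A B := T_swap23 A B A
  have e2 : T μ B A A = T μ A A B := by rw [T_swap12, e1]
  have e3 : T μ B A B = T μ A B B := T_swap12 B A B
  have e4 : T μ B B A = T μ A B B := by rw [T_swap23, e3]
  have e5 : T μ A C A = T μ A A C := T_swap23 A C A
  have e6 : T μ C A A = T μ A A C := by rw [T_swap12, e5]
  have e7 : T μ C A C = T μ A C C := T_swap12 C A C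
  have e8 : T μ C C A = T μ A C C := by rw [T_swap23, e7]
  have e9 : T μ B C B = T μ B B C := T_swap23 B C B
  have e10 : T μ C B B = T μ B B C := by rw [T_swap12, e9]
  have e11 : T μ C B C = T μ B C C := T_swap12 C B C
  have e12 : T μ C C B = T μ B C C := by rw [T_swap23, e11]
  have e13 : T μ A C B = T μ A B C := T_swap23 A C B
  have e14 : T μ B A C = T μ A B C := T_swap12 B A C
  have e15 : T μ B C A = T μ A B C := by rw [T_swap23, e14]
  have e16 : T μ C A B = T μ A B C := by rw [T_swap12, e13]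
  have e17 : T μ C B A = T μ A B C := by rw [T_swap23, e16]
  rw [e1, e2, e3, e4, e5, e6, e7, e8, e9, e10, e11, e12, e13, e14, e15, e16, e17]
  unfold cub
  ring

/-- **the Alexandrov-Fenchel inequality in dimension three** -/
theorem af3 (h3 : finrank ℝ G = 3) (A B C : ConvexBody G) (hC : 0 < T μ C C C)
    (hAC : 0 < T μ A C C) (hBC : 0 < T μ B C C) :
    T μ A A C * T μ B B C ≤ T μ A B C ^ 2 := by
  refine af_alg (aaa := T μ A A A) (aab := T μ A A B) (abb := T μ A B B) (bbb := T μ B B B)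
    (acc := T μ A C C) (bcc := T μ B C C) (ccc := T μ C C C) hC hAC hBC (T_nonneg h3 _ _ _)
    (T_nonneg h3 _ _ _) (T_nonneg h3 _ _ _) (T_nonneg h3 _ _ _) (T_nonneg h3 _ _ _)
    (T_nonneg h3 _ _ _) (T_nonneg h3 _ _ _) ?_
  intro x y z x' y' z' r r' hx hy hz hx' hy' hz' hr hr' h1 h2
  lift x to ℝ≥0 using hx
  lift y to ℝ≥0 using hy
  lift z to ℝ≥0 using hz
  lift x' to ℝ≥0 using hx'
  lift y' to ℝ≥0 using hy'
  lift z' to ℝ≥0 using hz'
  have e1 := vl_comb (μ := μ) h3 A B C x y z
  have e2 := vl_comb (μ := μ) h3 A B C x' y' z'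
  have e3 := vl_comb (μ := μ) h3 A B C (x + x') (y + y') (z + z')
  have h1' := h1.trans (le_of_eq e1.symm)
  have h2' := h2.trans (le_of_eq e2.symm)
  have hr3 : r ^ finrank ℝ G = r ^ 3 := by rw [h3]
  have hr3' : r' ^ finrank ℝ G = r' ^ 3 := by rw [h3]
  have key := bm_real μ _ _ hr hr' (hr3.le.trans h1') (hr3'.le.trans h2')
  rw [h3] at key
  refine key.trans (le_of_eq ?_)
  push_cast at e3
  rw [← e3]
  congr 1
  rw [add_smul, add_smul, add_smul]
  abel

end Pool.Agent.H590.M3

end
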