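import Pool.Agent.H590.M3.MV3

/-!
# Minkowski's quadratic inequality in dimension `n`
-/

set_option autoImplicit false
set_option linter.unusedSectionVars false

open MeasureTheory Set Multiset Module Filter Topology
open scoped Pointwise NNReal ENNReal

noncomputable section

namespace Pool.Agent.H590.M3

open Pool.Agent.TH650.MV

theorem one_add_pow_le (n : ℕ) {x : ℝ} (h0 : 0 ≤ x) (h1 : x ≤ 1) :
    (1 + x) ^ n ≤ 1 + n * x + (n.choose 2 : ℝ) * x ^ 2 + 4 ^ n * x ^ 3 := by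
  induction n with
  | zero => simp; positivity
  | succ n ih =>
    have hc : ((n + 1).choose 2 : ℝ) = (n.choose 2 : ℝ) + n := by
      rw [Nat.choose_succ_succ' n 1, Nat.choose_one_right]
      push_cast; ring
    have hc4 : (n.choose 2 : ℝ) ≤ 4 ^ n := by
      have h2 : n.choose 2 ≤ 2 ^ n := Nat.choose_le_two_pow n 2
      have h3 : (2 : ℕ) ^ n ≤ 4 ^ n := Nat.pow_le_pow_left (by norm_num) n
      exact_mod_cast h2.trans h3
    have h4 : (1 + x) ^ (n + 1) ≤
        (1 + n * x + (n.choose 2 : ℝ) * x ^ 2 + 4 ^ n * x ^ 3) * (1 + x) := by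
      rw [pow_succ]
      exact mul_le_mul_of_nonneg_right ih (by linarith)
    refine h4.trans ?_
    rw [hc]
    push_cast
    have e : 1 + (n + 1) * x + ((n.choose 2 : ℝ) + n) * x ^ 2 + 4 ^ (n + 1) * x ^ 3 -
        (1 + n * x + (n.choose 2 : ℝ) * x ^ 2 + 4 ^ n * x ^ 3) * (1 + x) =
        x ^ 3 * ((4 ^ n - (n.choose 2 : ℝ)) + 4 ^ n * (1 - x) + 4 ^ n) := by ring
    have h5 : 0 ≤ x ^ 3 * ((4 ^ n - (n.choose 2 : ℝ)) + 4 ^ n * (1 - x) + 4 ^ n) := by
      refine mul_nonneg (by positivity) ?_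
      have : (0 : ℝ) ≤ 4 ^ n * (1 - x) := mul_nonneg (by positivity) (by linarith)
      have : (0 : ℝ) ≤ 4 ^ n := by positivity
      linarith
    linarith

theorem le_one_add_pow (n : ℕ) {x : ℝ} (h0 : 0 ≤ x) :
    1 + n * x + (n.choose 2 : ℝ) * x ^ 2 ≤ (1 + x) ^ n := by
  induction n with
  | zero => simp
  | succ n ih =>
    have hc : ((n + 1).choose 2 : ℝ) = (n.choose 2 : ℝ) + n := by
      rw [Nat.choose_succ_succ' n 1, Nat.choose_one_right]
      push_cast; ring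
    have h4 : (1 + n * x + (n.choose 2 : ℝ) * x ^ 2) * (1 + x) ≤ (1 + x) ^ (n + 1) := by
      rw [pow_succ]
      exact mul_le_mul_of_nonneg_right ih (by linarith)
    refine le_trans ?_ h4
    rw [hc]
    push_cast
    have : 0 ≤ (n.choose 2 : ℝ) * x ^ 3 := by positivity
    nlinarith

/-- the elementary part of Minkowski's quadratic inequality -/
theorem alg2 (m : ℕ) (a : ℕ → ℝ) (ha : ∀ i ≤ m + 2, 0 ≤ a i) (ha0 : 0 < a 0)
    (H : ∀ s : ℝ, 0 < s → ∀ γ r : ℝ, 0 ≤ γ → 0 ≤ r → γ ^ (m + 2) ≤ a 0 →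
      r ^ (m + 2) ≤ ∑ i ∈ Finset.range (m + 3), ((m + 2).choose i : ℝ) * (2 * s) ^ i * a i →
      (γ + r) ^ (m + 2) ≤
        2 ^ (m + 2) * ∑ i ∈ Finset.range (m + 3), ((m + 2).choose i : ℝ) * s ^ i * a i) :
    a 0 * a 2 ≤ a 1 ^ 2 := by
  by_contra hcon
  push Not at hcon
  set A := a 1 / a 0 with hA
  set B := a 2 / a 0 with hB
  have hA0 : 0 ≤ A := div_nonneg (ha 1 (by omega)) ha0.le
  have e1 : a 1 = a 0 * A := by rw [hA]; field_simp
  have e2 : a 2 = a 0 * B := by rw [hB]; field_simp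
  set δ := B - A ^ 2 with hδ
  have hδ0 : 0 < δ := by
    rw [e1, e2] at hcon
    have : 0 < a 0 ^ 2 * δ := by rw [hδ]; nlinarith
    exact (mul_pos_iff_of_pos_left (by positivity)).1 this
  set N : ℝ := (m : ℝ) + 2 with hN
  have hN2 : (2 : ℝ) ≤ N := by
    have : (0 : ℝ) ≤ m := by positivity
    rw [hN]; linarith
  have hC2 : ((m + 2).choose 2 : ℝ) = N * (N - 1) / 2 := by
    rw [Nat.cast_choose_two]
    push_cast
    rw [hN]
  set c := 3 * (N - 1) / 8 * δ with hc
  have hc0 : 0 < c := by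
    rw [hc]
    have : 0 < N - 1 := by linarith
    positivity
  obtain ⟨γ, hγ0, hγ⟩ : ∃ γ : ℝ, 0 < γ ∧ γ ^ (m + 2) = a 0 := by
    refine ⟨a 0 ^ ((1 : ℝ) / (m + 2 : ℕ)), Real.rpow_pos_of_pos ha0 _, ?_⟩
    rw [← Real.rpow_natCast, ← Real.rpow_mul ha0.le]
    rw [one_div, inv_mul_cancel₀ (by positivity), Real.rpow_one]
  -- expansions of the polynomial
  set M := ∑ i ∈ Finset.range m, ((m + 2).choose (i + 3) : ℝ) * a (i + 3) with hM
  have hM0 : 0 ≤ M := Finset.sum_nonneg fun i hi =>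
    mul_nonneg (by positivity) (ha _ (by have := Finset.mem_range.1 hi; omega))
  have split : ∀ t : ℝ, ∑ i ∈ Finset.range (m + 3), ((m + 2).choose i : ℝ) * t ^ i * a i =
      ∑ i ∈ Finset.range m, ((m + 2).choose (i + 3) : ℝ) * t ^ (i + 3) * a (i + 3) +
        N * (N - 1) / 2 * t ^ 2 * a 2 + N * t * a 1 + a 0 := by
    intro t
    rw [Finset.sum_range_succ', Finset.sum_range_succ', Finset.sum_range_succ']
    simp only [zero_add, Nat.choose_zero_right, Nat.choose_one_right, pow_zero, pow_one]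
    rw [show (1 + 1 : ℕ) = 2 from rfl, hC2]
    push_cast
    rw [← hN]
    ring
  have lower : ∀ t : ℝ, 0 ≤ t → N * (N - 1) / 2 * t ^ 2 * a 2 + N * t * a 1 + a 0 ≤
      ∑ i ∈ Finset.range (m + 3), ((m + 2).choose i : ℝ) * t ^ i * a i := by
    intro t ht
    rw [split]
    have : 0 ≤ ∑ i ∈ Finset.range m, ((m + 2).choose (i + 3) : ℝ) * t ^ (i + 3) * a (i + 3) :=
      Finset.sum_nonneg fun i hi =>
        mul_nonneg (by positivity) (ha _ (by have := Finset.mem_range.1 hi; omega))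
    linarith
  have upper : ∀ t : ℝ, 0 ≤ t → t ≤ 1 →
      ∑ i ∈ Finset.range (m + 3), ((m + 2).choose i : ℝ) * t ^ i * a i ≤
        M * t ^ 3 + N * (N - 1) / 2 * t ^ 2 * a 2 + N * t * a 1 + a 0 := by
    intro t ht ht1
    rw [split]
    have : ∑ i ∈ Finset.range m, ((m + 2).choose (i + 3) : ℝ) * t ^ (i + 3) * a (i + 3) ≤
        M * t ^ 3 := by
      rw [hM, Finset.sum_mul]
      refine Finset.sum_le_sum fun i hi => ?_
      have h1 : 0 ≤ a (i + 3) := ha _ (by have := Finset.mem_range.1 hi; omega)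
      have h2 : t ^ (i + 3) ≤ t ^ 3 := pow_le_pow_of_le_one ht ht1 (by omega)
      calc ((m + 2).choose (i + 3) : ℝ) * t ^ (i + 3) * a (i + 3) =
            ((m + 2).choose (i + 3) : ℝ) * a (i + 3) * t ^ (i + 3) := by ring
        _ ≤ _ := mul_le_mul_of_nonneg_left h2 (by positivity)
    linarith
  -- the small parameter
  let g1 : ℝ → ℝ := fun s => N * (N - 1) / 2 * (16 * A * c * s + 16 * c ^ 2 * s ^ 2) +
    4 ^ (m + 2) * (s * (2 * A + 4 * c * s) ^ 3)
  let g2 : ℝ → ℝ := fun s => M * s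
  let g3 : ℝ → ℝ := fun s => 2 * A * s + 4 * c * s ^ 2
  have hNN : 0 < N * (N - 1) := by
    have : 0 < N - 1 := by linarith
    positivity
  have t1 : ∀ᶠ s in 𝓝[>] (0 : ℝ), g1 s < N * (N - 1) / 2 * δ := by
    have : ContinuousAt g1 0 := by fun_prop
    refine (this.eventually (gt_mem_nhds ?_)).filter_mono nhdsWithin_le_nhds
    simp only [g1]
    have : 0 < N * (N - 1) / 2 * δ := by positivity
    simpa using this
  have t2 : ∀ᶠ s in 𝓝[>] (0 : ℝ), g2 s < N * (N - 1) / 4 * δ * a 0 := by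
    have : ContinuousAt g2 0 := by fun_prop
    refine (this.eventually (gt_mem_nhds ?_)).filter_mono nhdsWithin_le_nhds
    simp only [g2]
    have : 0 < N * (N - 1) / 4 * δ * a 0 := by positivity
    simpa using this
  have t3 : ∀ᶠ s in 𝓝[>] (0 : ℝ), g3 s < 1 := by
    have : ContinuousAt g3 0 := by fun_prop
    refine (this.eventually (gt_mem_nhds ?_)).filter_mono nhdsWithin_le_nhds
    simp only [g3]
    norm_num
  obtain ⟨s, ⟨⟨⟨h1, h2⟩, h3⟩, h4⟩⟩ := (((t1.and t2).and t3).and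
    (Ioc_mem_nhdsGT (show (0 : ℝ) < 1 by norm_num))).exists
  obtain ⟨hs0, hs1⟩ := h4
  simp only [g1, g2, g3] at h1 h2 h3
  set x := 2 * A * s + 4 * c * s ^ 2 with hx
  have hx0 : 0 ≤ x := by rw [hx]; positivity
  have key := H s hs0 γ (γ * (1 + x)) hγ0.le (by positivity) hγ.le ?_
  · have e : (γ + γ * (1 + x)) ^ (m + 2) = 2 ^ (m + 2) * (a 0 * (1 + x / 2) ^ (m + 2)) := by
      rw [← hγ, ← mul_pow, ← mul_pow]
      congr 1
      ring
    rw [e] at key
    have k1 := le_of_mul_le_mul_left key (by positivity)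
    have k2 := k1.trans (upper s hs0.le hs1)
    have k3 := le_one_add_pow (m + 2) (x := x / 2) (by positivity)
    rw [hC2] at k3
    push_cast at k3
    rw [← hN] at k3
    have k4 : a 0 * (1 + N * (x / 2) + N * (N - 1) / 2 * (x / 2) ^ 2) ≤
        M * s ^ 3 + N * (N - 1) / 2 * s ^ 2 * a 2 + N * s * a 1 + a 0 :=
      (mul_le_mul_of_nonneg_left k3 ha0.le).trans k2
    rw [e1, e2] at k4
    have k5 : (A * s) ^ 2 ≤ (x / 2) ^ 2 := by
      refine pow_le_pow_left₀ (by positivity) ?_ 2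
      rw [hx]
      have : 0 ≤ 2 * c * s ^ 2 := by positivity
      linarith
    have k6 : a 0 * (N * (N - 1) / 2 * (A * s) ^ 2) ≤ a 0 * (N * (N - 1) / 2 * (x / 2) ^ 2) :=
      mul_le_mul_of_nonneg_left (mul_le_mul_of_nonneg_left k5 (by positivity)) ha0.le
    have k7 : a 0 * (N * (2 * c * s ^ 2)) ≤ M * s ^ 3 + a 0 * (N * (N - 1) / 2 * s ^ 2 * δ) := by
      have e5 : x / 2 = A * s + 2 * c * s ^ 2 := by rw [hx]; ring
      rw [hδ]
      rw [e5] at k4 k6
      nlinarith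
    have k8 : a 0 * (N * (2 * c)) * s ^ 2 ≤ (M * s + a 0 * (N * (N - 1) / 2 * δ)) * s ^ 2 := by
      nlinarith
    have k9 := le_of_mul_le_mul_right k8 (by positivity)
    rw [hc] at k9
    nlinarith
  · refine le_trans ?_ (lower (2 * s) (by positivity))
    have u1 := one_add_pow_le (m + 2) hx0 h3.le
    rw [hC2] at u1
    push_cast at u1
    rw [← hN] at u1
    rw [mul_pow, hγ]
    refine (mul_le_mul_of_nonneg_left u1 ha0.le).trans ?_
    rw [e1, e2]
    have u2 : N * (4 * c * s ^ 2) + N * (N - 1) / 2 * (16 * A * c * s + 16 * c ^ 2 * s ^ 2) * s ^ 2 +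
        4 ^ (m + 2) * x ^ 3 ≤ 4 * (N * (N - 1) / 2) * δ * s ^ 2 := by
      have u3 : x ^ 3 = s * (2 * A + 4 * c * s) ^ 3 * s ^ 2 := by rw [hx]; ring
      rw [u3]
      have u4 : N * (4 * c) + N * (N - 1) / 2 * (16 * A * c * s + 16 * c ^ 2 * s ^ 2) +
          4 ^ (m + 2) * (s * (2 * A + 4 * c * s) ^ 3) ≤ 4 * (N * (N - 1) / 2) * δ := by
        have u5 : N * (4 * c) = 3 * (N * (N - 1) / 2) * δ := by rw [hc]; ring
        rw [u5]
        linarith
      have u6 := mul_le_mul_of_nonneg_right u4 (by positivity : (0 : ℝ) ≤ s ^ 2)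
      linarith
    have u7 : a 0 * (1 + N * x + N * (N - 1) / 2 * x ^ 2 + 4 ^ (m + 2) * x ^ 3) =
        a 0 + N * (2 * s) * (a 0 * A) + a 0 * (N * (N - 1) / 2 * (4 * A ^ 2 * s ^ 2)) +
        a 0 * (N * (4 * c * s ^ 2) + N * (N - 1) / 2 *
          (16 * A * c * s + 16 * c ^ 2 * s ^ 2) * s ^ 2 + 4 ^ (m + 2) * x ^ 3) := by
      have : x ^ 2 = 4 * A ^ 2 * s ^ 2 + (16 * A * c * s + 16 * c ^ 2 * s ^ 2) * s ^ 2 := by
        rw [hx]; ring
      rw [this, hx]
      ring
    rw [u7]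
    have u8 := mul_le_mul_of_nonneg_left u2 ha0.le
    rw [hδ] at u8
    nlinarith

section
variable {G : Type*} [NormedAddCommGroup G] [NormedSpace ℝ G] [FiniteDimensional ℝ G]
  [MeasurableSpace G] [BorelSpace G] (μ : Measure G) [μ.IsAddHaarMeasure]

/-- **Minkowski's quadratic inequality** -/
theorem mink2 {m : ℕ} (hm : finrank ℝ G = m + 2) (A B : ConvexBody G) (hA : 0 < vl μ A) :
    vl μ A * V μ (replicate 2 B + replicate m A) ≤
      V μ (replicate 1 B + replicate (m + 1) A) ^ 2 := by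
  have hV0 : V μ (replicate 0 B + replicate (m + 2 - 0) A) = vl μ A := by
    rw [replicate_zero, zero_add, Nat.sub_zero, ← hm, V_self]
  have h : V μ (replicate 0 B + replicate (m + 2 - 0) A) * V μ (replicate 2 B + replicate (m + 2 - 2) A)
      ≤ V μ (replicate 1 B + replicate (m + 2 - 1) A) ^ 2 := by
    refine alg2 m (fun i => V μ (replicate i B + replicate (m + 2 - i) A)) ?_ ?_ ?_
    · intro i hi
      exact V_nonneg μ _ (by rw [card_add, card_replicate, card_replicate, hm]; omega)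
    · rw [hV0]
      exact hA
    · intro s hs γ r hγ hr h1 h2
      rw [hV0] at h1
      set c : ℝ≥0 := ⟨s, hs.le⟩ with hc
      have hcs : (c : ℝ) = s := rfl
      have p1 := vl_add_smul μ A B ((2 : ℝ≥0) * c)
      have p2 := vl_add_smul μ A B c
      rw [hm] at p1 p2
      rw [show m + 2 + 1 = m + 3 from rfl] at p1 p2
      push_cast at p1
      rw [hcs] at p1 p2
      rw [← p1] at h2
      have key := bm_real μ A (A + ((2 : ℝ≥0) * c) • B) hγ hr (by rw [hm]; exact h1)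
        (by rw [hm]; exact h2)
      rw [hm] at key
      refine key.trans (le_of_eq ?_)
      have e : A + (A + ((2 : ℝ≥0) * c) • B) = ((2 : ℕ) : ℝ≥0) • (A + c • B) := by
        rw [smul_add, Nat.cast_smul_eq_nsmul, two_nsmul, smul_smul, Nat.cast_ofNat, add_assoc]
      rw [e, vl_nsmul, hm, p2]
      norm_num
  rw [hV0] at h
  exact h

end

end Pool.Agent.H590.M3

end
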